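import Pool.Agent.Lib.TL.Pair4

/-! # Growth of a single chain (helper74, helper72, helper3)

Start at an edge of a minimum cut between `q` and the odd nodes `O`; split only the pair nodes which
the chain reaches. The chain ends at `q` on one side and in `O` on the other side. -/

set_option autoImplicit false

namespace TL

open Finset Classical ThmQ KT

variable {N D : Type*}

/-- a pair node: two darts of each colour -/
def PN (ds : Finset D) (nd : D → N) (col : D → Bool) (p : N) : Prop :=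
  ∀ k : Bool, (cdt ds nd col p k).card = 2

variable {al al0 : D → D} {ds ds0 : Finset D} {nd : D → N} {q p : N} {O : Finset N} {lam : ℕ}
variable {col : D → Bool} {x x' y y' : D} {T : D → List D}

/-- two elements, one of them given -/
theorem two_mem {s : Finset D} (h : s.card = 2) {c : D} (hc : c ∈ s) : ∃ d, d ≠ c ∧ s = {c, d} := by
  obtain ⟨a, b, hab, hs⟩ := card_eq_two.1 h
  rw [hs, mem_insert, mem_singleton] at hc
  rcases hc with rfl | rfl
  · exact ⟨b, hab.symm, hs⟩
  · exact ⟨a, hab, by rw [hs, pair_comm]⟩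

/-- a pair node gives a 4-valent loopless node with a prescribed first dart -/
theorem exists_four (hR : Req al ds nd q O lam) (hp : PN ds nd col p) (hpq : p ≠ q) {c : D}
    (hc : c ∈ ds) (hcp : nd c = p) :
    ∃ x' y y', Four al ds nd p c x' y y' ∧ col x' = col c ∧ col y ≠ col c ∧ col y' ≠ col c := by
  obtain ⟨x', hx, hs⟩ := two_mem (hp (col c)) (mem_cdt.2 ⟨hc, hcp, rfl⟩)
  obtain ⟨y, y', hy, hs'⟩ := card_eq_two.1 (hp (!col c))
  have mx : x' ∈ cdt ds nd col p (col c) := by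
    rw [hs]
    simp
  have my : y ∈ cdt ds nd col p (!col c) := by
    rw [hs']
    simp
  have my' : y' ∈ cdt ds nd col p (!col c) := by
    rw [hs']
    simp
  rw [mem_cdt] at mx my my'
  have hne : ∀ b : Bool, (!b) ≠ b := by decide
  have cy : col y ≠ col c := by
    rw [my.2.2]
    exact hne _
  have cy' : col y' ≠ col c := by
    rw [my'.2.2]
    exact hne _
  have hall : ∀ d ∈ ds, nd d = p → d = c ∨ d = x' ∨ d = y ∨ d = y' := by
    intro d hd hdp
    by_cases h1 : col d = col c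
    · have h2 : d ∈ cdt ds nd col p (col c) := mem_cdt.2 ⟨hd, hdp, h1⟩
      rw [hs, mem_insert, mem_singleton] at h2
      tauto
    · have h2 : d ∈ cdt ds nd col p (!col c) := mem_cdt.2 ⟨hd, hdp, by
        revert h1
        cases col d <;> cases col c <;> decide⟩
      rw [hs', mem_insert, mem_singleton] at h2
      tauto
  have hnl : ∀ d ∈ ds, nd d = p → nd (al d) ≠ p := by
    obtain ⟨dq, hdq, hq⟩ := hR.qd
    have h4 := hR.u4 {p} ⟨c, hc, mem_singleton.2 hcp⟩
      ⟨dq, hdq, fun h1 => hpq (by rw [← mem_singleton.1 h1, hq])⟩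
    have h5 : (ds.filter fun d => nd d ∈ ({p} : Finset N) ∧ nd (al d) ∉ ({p} : Finset N)) ⊆
        ds.filter fun d => nd d = p := by
      intro d hd
      obtain ⟨h6, h7, -⟩ := mem_filter.1 hd
      exact mem_filter.2 ⟨h6, mem_singleton.1 h7⟩
    have h6 : (ds.filter fun d => nd d = p) ⊆ {c, x', y, y'} := by
      intro d hd
      obtain ⟨h7, h8⟩ := mem_filter.1 hd
      rw [mem_insert, mem_insert, mem_insert, mem_singleton]
      exact hall d h7 h8
    have h7 : (ds.filter fun d => nd d = p).card ≤ 4 := (card_le_card h6).trans card_le_four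
    have h8 := eq_of_subset_of_card_le h5 (h7.trans h4)
    intro d hd hdp h9
    have h10 : d ∈ ds.filter fun d => nd d = p := mem_filter.2 ⟨hd, hdp⟩
    rw [← h8] at h10
    exact (mem_filter.1 h10).2.2 (mem_singleton.2 h9)
  refine ⟨x', y, y', ⟨hc, mx.1, my.1, my'.1, hcp, mx.2.1, my.2.1, my'.2.1, hx.symm, ?_, ?_, ?_, ?_,
    hy, hall, hnl⟩, mx.2.2, cy, cy'⟩
  · exact fun e => cy (by rw [← e])
  · exact fun e => cy' (by rw [← e])
  · exact fun e => cy (by rw [← e, mx.2.2])
  · exact fun e => cy' (by rw [← e, mx.2.2])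

theorem Four.aly (h : Four al ds nd p x x' y y') (hS : Sys al ds) :
    al2 al x x' y y' (al y) = al x := by
  have h1 : al x ∈ ds2 ds x x' y y' := h.mem2.2 ⟨hS.mem _ h.hx, h.nl x h.hx h.px⟩
  have h2 := (h.sys2 hS).inv _ h1
  rwa [h.alx hS] at h2

/-- the trails after the splitting of a node -/
noncomputable def spT2 (al : D → D) (T : D → List D) (x x' y y' : D) : D → List D :=
  spT (spA al x y) (spT al T x y) x' y'

theorem Four.lf (h : Four al ds nd p x x' y y') (hS : Sys al ds)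
    (hL : Lf al0 ds0 nd q col al ds T) (hEv : Even (dct al0 nd ds0 {p})) (hpq : p ≠ q)
    (c1 : col x ≠ col y) (c2 : col x' ≠ col y') :
    Lf al0 ds0 nd q col (al2 al x x' y y') (ds2 ds x x' y y') (spT2 al T x x' y y') := by
  have h1 := hL.split hS h.hx h.hy h.n2 (h.px.trans h.py.symm) (by rw [h.px]; exact hEv)
    (by rw [h.px]; exact hpq) c1
  exact h1.split (h.sys1 hS) h.x'1 h.y'1 h.n5 (h.px'.trans h.py'.symm) (by rw [h.px']; exact hEv)
    (by rw [h.px']; exact hpq) c2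

theorem Four.Tx (h : Four al ds nd p x x' y y') (hS : Sys al ds) :
    spT2 al T x x' y y' (al x) = T (al x) ++ T y := by
  unfold spT2
  have h1 : al x ≠ al x' := fun e => h.n1 (hS.inj h.hx h.hx' e)
  have h2 : al x ≠ al y' := fun e => h.n3 (hS.inj h.hx h.hy' e)
  rw [spT, h.al1 h.px', h.al1 h.py', if_neg h1, if_neg h2, spT, if_pos rfl]

theorem Four.Ty (h : Four al ds nd p x x' y y') (hS : Sys al ds) :
    spT2 al T x x' y y' (al y) = T (al y) ++ T x := by
  unfold spT2
  have h1 : al y ≠ al x' := fun e => h.n4 (hS.inj h.hy h.hx' e).symm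
  have h2 : al y ≠ al y' := fun e => h.n6 (hS.inj h.hy h.hy' e)
  have h3 : al y ≠ al x := fun e => h.n2 (hS.inj h.hy h.hx e).symm
  rw [spT, h.al1 h.px', h.al1 h.py', if_neg h1, if_neg h2, spT, if_neg h3, if_pos rfl]

/-- the state of the growth: `c` is the inner end of the chain, `S` the set of the split nodes -/
structure St (al0 : D → D) (ds0 : Finset D) (nd : D → N) (q : N) (O : Finset N) (lam : ℕ)
    (col : D → Bool) (B S : Finset N) (al : D → D) (ds : Finset D) (T : D → List D) (c : D) :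
    Prop where
  req : Req al ds nd q O lam
  lf : Lf al0 ds0 nd q col al ds T
  mem : ∀ d, d ∈ ds ↔ d ∈ ds0 ∧ nd d ∉ S
  cd : c ∈ ds
  cB : nd c ∈ B
  cO : nd (al c) ∉ B
  cut : dct al nd ds B = lam
  on : ∀ p ∈ S, ∃ e ∈ T c, nd e = p
  Sq : q ∉ S
  SO : Disjoint S O

variable {B S : Finset N} {c : D}

/-- one splitting at a dart `a` which is an end of the chain -/
theorem St.grow (h : St al0 ds0 nd q O lam col B S al ds T c) (hq : q ∈ B) (hB : Disjoint B O)
    (hEv : ∀ v, v ≠ q → v ∉ O → Even (dct al0 nd ds0 {v}))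
    (hPN : ∀ d ∈ ds0, nd d ≠ q → nd d ∉ O → PN ds0 nd col (nd d)) {a : D} (ha : a = c ∨ a = al c)
    (haq : nd a ≠ q) (haO : nd a ∉ O) :
    ∃ S' al' ds' T' c', St al0 ds0 nd q O lam col B S' al' ds' T' c' ∧ ds'.card < ds.card ∧
      ∀ e ∈ T c, e ∈ T' c' := by
  have hS := h.req.sys
  have had : a ∈ ds := by
    rcases ha with rfl | rfl
    · exact h.cd
    · exact hS.mem _ h.cd
  have hac : al a = c ∨ (a = c) := by
    rcases ha with rfl | rfl
    · exact Or.inr rfl
    · exact Or.inl (hS.inv _ h.cd)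
  obtain ⟨ha0, haS⟩ := (h.mem a).1 had
  have hp : PN ds nd col (nd a) := by
    intro k
    rw [← hPN a ha0 haq haO k]
    congr 1
    ext d
    rw [mem_cdt, mem_cdt, h.mem]
    constructor
    · rintro ⟨⟨h1, -⟩, h2⟩
      exact ⟨h1, h2⟩
    · rintro ⟨h1, h2⟩
      exact ⟨⟨h1, by rw [h2.1]; exact haS⟩, h2⟩
  -- the splitting
  obtain ⟨x', y, y', hF, cx', hcy, hcy', hR'⟩ : ∃ x' y y', Four al ds nd (nd a) a x' y y' ∧
      col x' = col a ∧ col y ≠ col a ∧ col y' ≠ col a ∧
      Req (al2 al a x' y y') (ds2 ds a x' y y') nd q O lam := by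
    obtain ⟨x', y, y', hF, cx', hcy, hcy'⟩ := exists_four h.req hp haq had rfl
    rcases h.req.exists_split hF haq haO with h1 | h1
    · exact ⟨x', y, y', hF, cx', hcy, hcy', h1⟩
    · exact ⟨x', y', y, hF.sw, cx', hcy', hcy, h1⟩
  have hlf := hF.lf hS h.lf (hEv _ haq haO) haq hcy.symm (by rw [cx']; exact hcy'.symm)
  -- the cut `B`
  have hcut := hF.dct2 hS B
  have hlow := hR'.lm B hq hB
  rw [h.cut] at hcut
  have hno : ¬ alt al nd (nd a) a y B := by
    intro h1
    rw [if_pos h1] at hcut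
    omega
  have hcut' : dct (al2 al a x' y y') nd (ds2 ds a x' y y') B = lam := by omega
  have hmem : ∀ d, d ∈ ds2 ds a x' y y' ↔ d ∈ ds0 ∧ nd d ∉ insert (nd a) S := by
    intro d
    rw [hF.mem2, h.mem, mem_insert, not_or]
    tauto
  have hcard : (ds2 ds a x' y y').card < ds.card := by
    refine card_lt_card ⟨fun d hd => (hF.mem2.1 hd).1, fun hs => ?_⟩
    exact (hF.mem2.1 (hs had)).2 rfl
  have hSq : q ∉ insert (nd a) S := by
    rw [mem_insert, not_or]
    exact ⟨haq.symm, h.Sq⟩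
  have hSO : Disjoint (insert (nd a) S) O := by
    rw [disjoint_insert_left]
    exact ⟨haO, h.SO⟩
  have hyd : al y ∈ ds2 ds a x' y y' := hF.mem2.2 ⟨hS.mem _ hF.hy, hF.nl y hF.hy hF.py⟩
  have had2 : al a ∈ ds2 ds a x' y y' := hF.mem2.2 ⟨hS.mem _ had, hF.nl a had rfl⟩
  rcases ha with rfl | rfl
  · -- the inner end
    refine ⟨insert (nd a) S, al2 al a x' y y', ds2 ds a x' y y', spT2 al T a x' y y', al y,
      ⟨hR', hlf, hmem, hyd, ?_, ?_, hcut', ?_, hSq, hSO⟩, hcard, fun e he => by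
        rw [hF.Ty hS]
        exact List.mem_append_right _ he⟩
    · by_contra h1
      exact hno (Or.inr ⟨h.cO, h1, h.cB⟩)
    · rw [hF.aly hS]
      exact h.cO
    · intro r hr
      rw [hF.Ty hS]
      rcases mem_insert.1 hr with h1 | h1
      · refine ⟨a, List.mem_append_right _ ?_, h1.symm⟩
        have h2 := h.lf.head a had
        cases hT : T a with
        | nil =>
          rw [hT] at h2
          simp at h2
        | cons b l =>
          rw [hT, List.head?_cons] at h2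
          rw [Option.some.inj h2]
          exact List.mem_cons_self
      · obtain ⟨e, he, hep⟩ := h.on r h1
        exact ⟨e, List.mem_append_right _ he, hep⟩
  · -- the outer end
    have hcc : al (al c) = c := hS.inv _ h.cd
    have hcd2 : c ∈ ds2 ds (al c) x' y y' := by
      rw [hcc] at had2
      exact had2
    have halc : al2 al (al c) x' y y' c = al y := by
      have h1 := hF.alx hS
      rwa [hcc] at h1
    refine ⟨insert (nd (al c)) S, al2 al (al c) x' y y', ds2 ds (al c) x' y y',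
      spT2 al T (al c) x' y y', c, ⟨hR', hlf, hmem, hcd2, h.cB, ?_, hcut', ?_, hSq, hSO⟩, hcard,
      fun e he => by
        have h1 := hF.Tx hS (T := T)
        rw [hcc] at h1
        rw [h1]
        exact List.mem_append_left _ he⟩
    · rw [halc]
      intro h1
      refine hno (Or.inl ⟨?_, h1, h.cO⟩)
      rw [hcc]
      exact h.cB
    · intro r hr
      have hT2 : spT2 al T (al c) x' y y' c = T c ++ T y := by
        have h1 := hF.Tx hS (T := T)
        rwa [hcc] at h1
      rw [hT2]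
      rcases mem_insert.1 hr with h1 | h1
      · refine ⟨y, List.mem_append_right _ ?_, by rw [h1, hF.py]⟩
        have h2 := h.lf.head y hF.hy
        cases hT : T y with
        | nil =>
          rw [hT] at h2
          simp at h2
        | cons b l =>
          rw [hT, List.head?_cons] at h2
          rw [Option.some.inj h2]
          exact List.mem_cons_self
      · obtain ⟨e, he, hep⟩ := h.on r h1
        exact ⟨e, List.mem_append_left _ he, hep⟩

/-- the growth reaches `q` and `O` -/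
theorem St.finish (hq : q ∈ B) (hB : Disjoint B O)
    (hEv : ∀ v, v ≠ q → v ∉ O → Even (dct al0 nd ds0 {v}))
    (hPN : ∀ d ∈ ds0, nd d ≠ q → nd d ∉ O → PN ds0 nd col (nd d)) :
    ∀ (n : ℕ) (S : Finset N) (al : D → D) (ds : Finset D) (T : D → List D) (c : D),
      ds.card ≤ n → St al0 ds0 nd q O lam col B S al ds T c →
      ∃ S' al' ds' T' c', St al0 ds0 nd q O lam col B S' al' ds' T' c' ∧ nd c' = q ∧
        nd (al' c') ∈ O ∧ ∀ e ∈ T c, e ∈ T' c' := by
  intro n
  induction n with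
  | zero =>
    intro S al ds T c hn h
    have h1 : ds = ∅ := card_eq_zero.1 (by omega)
    exact absurd h.cd (by rw [h1]; exact notMem_empty _)
  | succ n ih =>
    intro S al ds T c hn h
    by_cases h1 : nd c = q
    · by_cases h2 : nd (al c) ∈ O
      · exact ⟨S, al, ds, T, c, h, h1, h2, fun e he => he⟩
      · obtain ⟨S', al', ds', T', c', h3, h4, h5⟩ := h.grow hq hB hEv hPN (Or.inr rfl)
          (fun h3 => h.cO (h3 ▸ hq)) h2
        obtain ⟨S2, al2, ds2, T2, c2, k1, k2, k3, k4⟩ := ih S' al' ds' T' c' (by omega) h3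
        exact ⟨S2, al2, ds2, T2, c2, k1, k2, k3, fun e he => k4 e (h5 e he)⟩
    · obtain ⟨S', al', ds', T', c', h3, h4, h5⟩ := h.grow hq hB hEv hPN (Or.inl rfl) h1
        (fun h3 => disjoint_left.1 hB h.cB h3)
      obtain ⟨S2, al2, ds2, T2, c2, k1, k2, k3, k4⟩ := ih S' al' ds' T' c' (by omega) h3
      exact ⟨S2, al2, ds2, T2, c2, k1, k2, k3, fun e he => k4 e (h5 e he)⟩

/-- the result of the growth: a single chain from `q` to `O` -/
structure Grown (al0 : D → D) (ds0 : Finset D) (nd : D → N) (q : N) (O : Finset N)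
    (col : D → Bool) (S : Finset N) (al : D → D) (ds : Finset D) (T : D → List D) (c : D) :
    Prop where
  sys0 : Sys al0 ds0
  sys : Sys al ds
  u4 : ∀ W : Finset N, (∃ d ∈ ds, nd d ∈ W) → (∃ d ∈ ds, nd d ∉ W) → 4 ≤ dct al nd ds W
  lf : Lf al0 ds0 nd q col al ds T
  mem : ∀ d, d ∈ ds ↔ d ∈ ds0 ∧ nd d ∉ S
  cd : c ∈ ds
  cq : nd c = q
  cO : nd (al c) ∈ O
  on : ∀ p ∈ S, ∃ e ∈ T c, nd e = p
  Sq : q ∉ S
  SO : Disjoint S O

/-- **Growth** from an edge `e0` of a minimum cut `B` between `q` and `O` -/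
theorem exists_grown_at (hS : Sys al ds) (hqd : ∃ d ∈ ds, nd d = q)
    (hOd : ∀ u ∈ O, ∃ d ∈ ds, nd d = u) (hqO : q ∉ O) (hOn : O.Nonempty)
    (hPN : ∀ d ∈ ds, nd d ≠ q → nd d ∉ O → PN ds nd col (nd d))
    (hu4 : ∀ W : Finset N, (∃ d ∈ ds, nd d ∈ W) → (∃ d ∈ ds, nd d ∉ W) → 4 ≤ dct al nd ds W)
    (hqB : q ∈ B) (hBO : Disjoint B O)
    (hmin : ∀ W : Finset N, q ∈ W → Disjoint W O → dct al nd ds B ≤ dct al nd ds W)
    {e0 : D} (he0 : e0 ∈ ds) (h5 : nd e0 ∈ B) (h6 : nd (al e0) ∉ B) :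
    ∃ S al' ds' T c, Grown al ds nd q O col S al' ds' T c ∧
      Req al' ds' nd q O (dct al nd ds B) ∧ e0 ∈ T c := by
  obtain ⟨dq, hdq, hq⟩ := hqd
  -- parity of the pair nodes
  have hEv : ∀ v, v ≠ q → v ∉ O → Even (dct al nd ds {v}) := by
    intro v hvq hvO
    by_cases h1 : ∃ d ∈ ds, nd d = v
    · obtain ⟨d, hd, rfl⟩ := h1
      have h2 := hPN d hd hvq hvO
      have h4 := hu4 {nd d} ⟨d, hd, mem_singleton_self _⟩
        ⟨dq, hdq, fun h1 => hvq (by rw [← mem_singleton.1 h1, hq])⟩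
      have h5 : dct al nd ds {nd d} ≤ 4 := by
        have h6 : (ds.filter fun e => nd e ∈ ({nd d} : Finset N) ∧ nd (al e) ∉ ({nd d} : Finset N)) ⊆
            cdt ds nd col (nd d) true ∪ cdt ds nd col (nd d) false := by
          intro e he
          obtain ⟨h7, h8, -⟩ := mem_filter.1 he
          rw [mem_union, mem_cdt, mem_cdt]
          have h9 := mem_singleton.1 h8
          cases col e <;> tauto
        refine (card_le_card h6).trans ((card_union_le _ _).trans ?_)
        rw [h2 true, h2 false]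
      have h6 : dct al nd ds {nd d} = 4 := le_antisymm h5 h4
      rw [h6]
      decide
    · have h2 : dct al nd ds {v} = 0 := by
        unfold dct
        rw [card_eq_zero, filter_eq_empty_iff]
        rintro d hd ⟨h3, -⟩
        exact h1 ⟨d, hd, mem_singleton.1 h3⟩
      rw [h2]
      decide
  have hpar : ∀ W : Finset N, q ∈ W → Disjoint W O →
      (dct al nd ds W : ZMod 2) = (dct al nd ds {q} : ZMod 2) := by
    intro W h1 h2
    rw [hS.parity W, ← sum_erase_add _ _ h1, sum_eq_zero, zero_add]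
    intro v hv
    rw [mem_erase] at hv
    rw [← even_iff_zmod]
    exact hEv v hv.1 (disjoint_left.1 h2 hv.2)
  have hR : Req al ds nd q O (dct al nd ds B) := by
    refine ⟨hS, ⟨dq, hdq, hq⟩, hOd, hqO, hOn, hEv, hu4, hmin, fun W h1 h2 => ?_⟩
    exact (ZMod.natCast_eq_natCast_iff' _ _ _).1 ((hpar W h1 h2).trans (hpar B hqB hBO).symm)
  have hSt : St al ds nd q O (dct al nd ds B) col B ∅ al ds (fun d => [d]) e0 :=
    ⟨hR, Lf.init, fun d => ⟨fun h1 => ⟨h1, notMem_empty _⟩, fun h1 => h1.1⟩, he0, h5, h6, rfl,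
      fun p hp => absurd hp (notMem_empty _), notMem_empty _, disjoint_empty_left _⟩
  obtain ⟨S, al', ds', T, c', h1, h2, h3, h4⟩ :=
    St.finish hqB hBO hEv hPN ds.card ∅ al ds _ e0 le_rfl hSt
  exact ⟨S, al', ds', T, c', ⟨hS, h1.req.sys, h1.req.u4, h1.lf, h1.mem, h1.cd, h2, h3, h1.on, h1.Sq,
    h1.SO⟩, h1.req, h4 e0 (List.mem_singleton_self e0)⟩

/-- there is a minimum cut between `q` and `O` -/
theorem exists_min_cut (hqO : q ∉ O) : ∃ B : Finset N, q ∈ B ∧ Disjoint B O ∧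
    ∀ W : Finset N, q ∈ W → Disjoint W O → dct al nd ds B ≤ dct al nd ds W := by
  have hex : ∃ n, ∃ W : Finset N, q ∈ W ∧ Disjoint W O ∧ dct al nd ds W = n :=
    ⟨_, {q}, mem_singleton_self q, disjoint_singleton_left.2 hqO, rfl⟩
  obtain ⟨B, hqB, hBO, hBl⟩ := Nat.find_spec hex
  refine ⟨B, hqB, hBO, fun W h1 h2 => ?_⟩
  rw [hBl]
  exact Nat.find_min' hex ⟨W, h1, h2, rfl⟩

/-- **Growth** from an edge of a minimum cut between `q` and `O` -/
theorem exists_grown (hS : Sys al ds) (hqd : ∃ d ∈ ds, nd d = q) (hOd : ∀ u ∈ O, ∃ d ∈ ds, nd d = u)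
    (hqO : q ∉ O) (hOn : O.Nonempty)
    (hPN : ∀ d ∈ ds, nd d ≠ q → nd d ∉ O → PN ds nd col (nd d))
    (hu4 : ∀ W : Finset N, (∃ d ∈ ds, nd d ∈ W) → (∃ d ∈ ds, nd d ∉ W) → 4 ≤ dct al nd ds W) :
    ∃ S al' ds' T c, Grown al ds nd q O col S al' ds' T c := by
  obtain ⟨B, hqB, hBO, hmin⟩ := exists_min_cut (al := al) (ds := ds) (nd := nd) hqO
  obtain ⟨dq, hdq, hq⟩ := hqd
  obtain ⟨u, hu⟩ := hOn
  obtain ⟨du, hdu, hdu'⟩ := hOd u hu
  have hB4 := hu4 B ⟨dq, hdq, by rw [hq]; exact hqB⟩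
    ⟨du, hdu, by rw [hdu']; exact fun h1 => disjoint_left.1 hBO h1 hu⟩
  obtain ⟨c, hc⟩ : (ds.filter fun d => nd d ∈ B ∧ nd (al d) ∉ B).Nonempty := by
    rw [← card_pos]
    have h1 : (ds.filter fun d => nd d ∈ B ∧ nd (al d) ∉ B).card = dct al nd ds B := rfl
    omega
  obtain ⟨hc1, hc2, hc3⟩ := mem_filter.1 hc
  obtain ⟨S, al', ds', T, c, h1, -, -⟩ := exists_grown_at hS ⟨dq, hdq, hq⟩ hOd hqO ⟨u, hu⟩ hPN hu4
    hqB hBO hmin hc1 hc2 hc3
  exact ⟨S, al', ds', T, c, h1⟩

/-- the darts of the chain -/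
noncomputable def KK (al0 : D → D) (T : D → List D) (c : D) : Finset D :=
  (T c).toFinset ∪ ((T c).map al0).toFinset

theorem mem_KK {d : D} : d ∈ KK al0 T c ↔ d ∈ T c ∨ d ∈ (T c).map al0 := by
  unfold KK
  rw [mem_union, List.mem_toFinset, List.mem_toFinset]

namespace Grown

variable (h : Grown al0 ds0 nd q O col S al ds T c)

include h

theorem ne_nil {d : D} (hd : d ∈ ds) : T d ≠ [] := fun e => by
  have := h.lf.head d hd
  rw [e] at this
  simp at this

theorem cons {d : D} (hd : d ∈ ds) : ∃ l, T d = d :: l := by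
  have h7 := h.lf.head d hd
  cases hT : T d with
  | nil => rw [hT] at h7; simp at h7
  | cons a l =>
    rw [hT, List.head?_cons] at h7
    exact ⟨l, by rw [Option.some.inj h7]⟩

theorem self_mem {d : D} (hd : d ∈ ds) : d ∈ T d := by
  obtain ⟨l, hl⟩ := h.cons hd
  rw [hl]
  exact List.mem_cons_self

/-- inner darts of the trails are at split nodes -/
theorem tail {d b : D} {l : List D} (hd : d ∈ ds) (hl : T d = d :: l) (hb : b ∈ l) :
    b ∈ ds0 ∧ nd b ∈ S := by
  have h1 : b ∈ T d := by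
    rw [hl]
    exact List.mem_cons_of_mem _ hb
  have h2 := h.lf.sub d hd b h1
  refine ⟨h2, ?_⟩
  by_contra h3
  have h4 : b ∈ ds := (h.mem b).2 ⟨h2, h3⟩
  have h5 := h.lf.dis _ h4 _ hd b (h.self_mem h4) h1
  have h6 := h.lf.nod d hd
  rw [hl, List.nodup_cons, ← h5] at h6
  exact h6.1 hb

theorem rev_mem {d e : D} (hd : d ∈ ds) (he : e ∈ T d) : al0 e ∈ T (al d) := by
  rw [h.lf.rev d hd, List.mem_reverse]
  exact List.mem_map_of_mem he

theorem KK_iff {d : D} : d ∈ KK al0 T c ↔ d ∈ T c ∨ d ∈ T (al c) := by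
  rw [mem_KK, h.lf.rev c h.cd, List.mem_reverse]

theorem KK_sub : KK al0 T c ⊆ ds0 := by
  intro d hd
  rcases h.KK_iff.1 hd with h1 | h1
  · exact h.lf.sub _ h.cd _ h1
  · exact h.lf.sub _ (h.sys.mem _ h.cd) _ h1

theorem KK_al {d : D} (hd : d ∈ KK al0 T c) : al0 d ∈ KK al0 T c := by
  rw [h.KK_iff] at hd ⊢
  rcases hd with h1 | h1
  · exact Or.inr (h.rev_mem h.cd h1)
  · left
    have h2 := h.rev_mem (h.sys.mem _ h.cd) h1
    rwa [h.sys.inv _ h.cd] at h2

theorem one {e : D} (he : e ∈ T c) : al0 e ∉ T c := by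
  intro h1
  have h2 := h.rev_mem h.cd he
  exact h.sys.ne c h.cd (h.lf.dis _ (h.sys.mem _ h.cd) _ h.cd _ h2 h1)

/-- a live edge of the grown system crosses `W` along a dart of the original system -/
theorem cross {N' : Type*} {ν : D → N'} {W : Finset N'}
    (hν : ∀ a ∈ ds0, ∀ b ∈ ds0, nd a = nd b → nd a ∈ S → (ν a ∈ W ↔ ν b ∈ W)) {d : D}
    (hd : d ∈ ds) (h1 : ν d ∈ W) (h2 : ν (al d) ∉ W) :
    ∃ f ∈ T d, ν f ∈ W ∧ ν (al0 f) ∉ W := by
  obtain ⟨l, hl⟩ := h.cons hd
  have key : ∀ (l : List D) (d : D), (d :: l).IsChain (Nx al0 ds0 nd q col) →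
      (∀ a ∈ d :: l, a ∈ ds0) → (∀ b ∈ l, nd b ∈ S) → ν d ∈ W →
      (∀ e ∈ (d :: l).getLast?, ν (al0 e) ∉ W) → ∃ f ∈ d :: l, ν f ∈ W ∧ ν (al0 f) ∉ W := by
    intro l
    induction l with
    | nil =>
      intro d _ _ _ h1 h2
      exact ⟨d, List.mem_singleton_self d, h1, h2 d (by simp)⟩
    | cons b l ih =>
      intro d hc hs hS h1 h2
      by_cases h3 : ν (al0 d) ∈ W
      · rw [List.isChain_cons_cons] at hc
        have h4 : ν (al0 d) ∈ W ↔ ν b ∈ W := by
          have h5 := hS b List.mem_cons_self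
          refine hν _ (h.sys0.mem _ (hs d List.mem_cons_self)) _
            (hs b (List.mem_cons_of_mem _ List.mem_cons_self)) hc.1.1 ?_
          rw [hc.1.1]
          exact h5
        obtain ⟨f, hf, h5⟩ := ih b hc.2 (fun a ha => hs a (List.mem_cons_of_mem _ ha))
          (fun a ha => hS a (List.mem_cons_of_mem _ ha)) (h4.1 h3)
          (fun e he => h2 e (by
            rw [List.getLast?_cons_cons]
            exact he))
        exact ⟨f, List.mem_cons_of_mem _ hf, h5⟩
      · exact ⟨d, List.mem_cons_self, h1, h3⟩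
  rw [hl]
  refine key l d ?_ (fun a ha => h.lf.sub d hd a (by rw [hl]; exact ha))
    (fun b hb => (h.tail hd hl hb).2) h1 (fun e he => ?_)
  · rw [← hl]
    exact h.lf.chain d hd
  · rw [h.lf.last d hd e (by rw [hl]; exact he)]
    exact h2

/-- **COMPARISON**: the degree in the grown system against the live darts of the original system -/
theorem cmp {N' : Type*} {ν : D → N'} (W : Finset N')
    (hν : ∀ a ∈ ds0, ∀ b ∈ ds0, nd a = nd b → nd a ∈ S → (ν a ∈ W ↔ ν b ∈ W)) :
    dct al ν ds W ≤ (ds0.filter fun d => ν d ∈ W ∧ ν (al0 d) ∉ W ∧ d ∉ KK al0 T c).card +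
      (if (ν c ∈ W ↔ ν (al c) ∈ W) then 0 else 1) := by
  set C := ds.filter fun d => ν d ∈ W ∧ ν (al d) ∉ W with hC
  have hCm : ∀ d, d ∈ C ↔ d ∈ ds ∧ ν d ∈ W ∧ ν (al d) ∉ W := fun d => by rw [hC, mem_filter]
  have hdct : dct al ν ds W = C.card := rfl
  have h1 : C.card ≤ ((C.erase c).erase (al c)).card +
      (if (ν c ∈ W ↔ ν (al c) ∈ W) then 0 else 1) := by
    by_cases c1 : ν c ∈ W <;> by_cases c2 : ν (al c) ∈ W
    · have m1 : c ∉ C := fun h2 => ((hCm _).1 h2).2.2 c2
      have m2 : al c ∉ C := fun h2 => ((hCm _).1 h2).2.2 (by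
        rw [h.sys.inv _ h.cd]
        exact c1)
      rw [erase_eq_of_notMem m1, erase_eq_of_notMem m2]
      omega
    · have m2 : al c ∉ C.erase c := fun h2 => c2 ((hCm _).1 (mem_erase.1 h2).2).2.1
      rw [erase_eq_of_notMem m2, if_neg (fun h2 => c2 (h2.1 c1))]
      have := pred_card_le_card_erase (s := C) (a := c)
      omega
    · have m1 : c ∉ C := fun h2 => c1 ((hCm _).1 h2).2.1
      rw [erase_eq_of_notMem m1, if_neg (fun h2 => c1 (h2.2 c2))]
      have := pred_card_le_card_erase (s := C) (a := al c)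
      omega
    · have m1 : c ∉ C := fun h2 => c1 ((hCm _).1 h2).2.1
      have m2 : al c ∉ C := fun h2 => c2 ((hCm _).1 h2).2.1
      rw [erase_eq_of_notMem m1, erase_eq_of_notMem m2]
      omega
  rw [hdct]
  refine h1.trans (Nat.add_le_add_right ?_ _)
  have hcr : ∀ d ∈ (C.erase c).erase (al c), ∃ f ∈ T d, ν f ∈ W ∧ ν (al0 f) ∉ W := by
    intro d hd
    rw [mem_erase, mem_erase, hCm] at hd
    exact h.cross hν hd.2.2.1 hd.2.2.2.1 hd.2.2.2.2
  choose! φ hφ1 hφ2 using hcr
  refine card_le_card_of_injOn φ (fun d hd => ?_) (fun a ha b hb hab => ?_)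
  · have hd' := hd
    rw [mem_coe] at hd hd'
    rw [mem_erase, mem_erase, hCm] at hd
    rw [mem_coe, mem_filter]
    refine ⟨h.lf.sub d hd.2.2.1 _ (hφ1 d hd'), (hφ2 d hd').1, (hφ2 d hd').2, fun h6 => ?_⟩
    rcases h.KK_iff.1 h6 with h7 | h7
    · exact hd.2.1 (h.lf.dis d hd.2.2.1 c h.cd _ (hφ1 d hd') h7)
    · exact hd.1 (h.lf.dis d hd.2.2.1 _ (h.sys.mem _ h.cd) _ (hφ1 d hd') h7)
  · rw [mem_coe] at ha hb
    have ha' := ha
    have hb' := hb
    rw [mem_erase, mem_erase, hCm] at ha' hb'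
    exact h.lf.dis a ha'.2.2.1 b hb'.2.2.1 (φ a) (hφ1 a ha) (hab ▸ hφ1 b hb)

end Grown

end TL
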