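import Pool.Agent.Lib.TL.Grow

/-! # Kill trails at vertex level: the killed darts (interface of helper30)

Vertices `V`, nodes `N`, `bl v` is the node of the vertex `v`, `pi d` the vertex of the dart `d`.
Pair nodes (`PN`) consist of two vertices with two darts each. `P` = darts of the chain and their
other ends. `w`, `x` are the end darts of the chain. -/

set_option autoImplicit false

namespace TL

open Finset Classical ThmQ KT

variable {V N D : Type*}

/-- requirements: cuts have at least 4 edges, cuts between `T1` and `T2` at least `lam` and the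
parity of `lam` -/
structure Rq (al : D → D) (ds : Finset D) (nd : D → N) (ns T1 T2 : Finset N) (lam : ℕ) : Prop where
  four : ∀ W ⊆ ns, W.Nonempty → W ≠ ns → 4 ≤ dct al nd ds W
  cut : ∀ W ⊆ ns, T1 ⊆ W → Disjoint W T2 → lam ≤ dct al nd ds W
  par : ∀ W ⊆ ns, T1 ⊆ W → Disjoint W T2 → dct al nd ds W % 2 = lam % 2

/-- the darts at the nodes of `ns` -/
noncomputable def rd (ds0 : Finset D) (pi : D → V) (bl : V → N) (ns : Finset N) : Finset D :=
  ds0.filter fun d => bl (pi d) ∈ ns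

/-- the node of a dart -/
abbrev nn (pi : D → V) (bl : V → N) : D → N := fun d => bl (pi d)

/-- the base system -/
structure Bs (al0 : D → D) (ds0 : Finset D) (pi : D → V) (bl : V → N) (PN ns0 : Finset N) :
    Prop where
  sys : Sys al0 ds0
  mem : ∀ d ∈ ds0, bl (pi d) ∈ ns0
  PNs : PN ⊆ ns0
  pair : ∀ p ∈ PN, ∃ u v, u ≠ v ∧ ∀ w, bl w = p ↔ (w = u ∨ w = v)
  two : ∀ u, bl u ∈ PN → (ds0.filter fun d => pi d = u).card = 2

/-- the result of the growth: `(al, ns)` is the system where exactly the pair nodes on the chain are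
split, `P` the set of killed darts -/
structure Out (al0 : D → D) (ds0 : Finset D) (pi : D → V) (bl : V → N) (PN ns0 : Finset N)
    (al : D → D) (ns : Finset N) (P : Finset D) (w x : D) : Prop where
  sys : Sys al (rd ds0 pi bl ns)
  sub : ns ⊆ ns0
  ter : ∀ p ∈ ns0, p ∉ PN → p ∈ ns
  Psub : P ⊆ ds0
  Pal : ∀ d ∈ P, al0 d ∈ P
  wP : w ∈ P
  xP : x ∈ P
  wx : al w = x
  wn : bl (pi w) ∈ ns
  xn : bl (pi x) ∈ ns
  wt : bl (pi w) ∉ PN
  xt : bl (pi x) ∉ PN
  /-- at the nodes which are not split only the two end darts are killed -/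
  ends : ∀ d ∈ P, bl (pi d) ∈ ns → d = w ∨ d = x
  /-- every split node is passed -/
  pas : ∀ p ∈ ns0, p ∉ ns → ∃ d ∈ P, bl (pi d) = p
  /-- the two vertices of a pair node lose the same number of darts -/
  eqn : ∀ u v, bl u = bl v → bl u ∈ PN →
    (P.filter fun d => pi d = u).card = (P.filter fun d => pi d = v).card
  /-- the live edges leaving a set of vertices which cuts no split pair -/
  cnt : ∀ W : Finset V, (∀ u v, bl u = bl v → bl u ∈ ns0 → bl u ∉ ns → (u ∈ W ↔ v ∈ W)) →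
    dct al pi (rd ds0 pi bl ns) W ≤ dct al0 pi (ds0 \ P) W + (if pi x ∈ W then 1 else 0) +
      (if pi w ∈ W then 1 else 0)
  /-- a set which is entered by the chain has a killed edge in its boundary -/
  hit : ∀ W : Finset V, (∀ u v, bl u = bl v → bl u ∈ PN → (u ∈ W ↔ v ∈ W)) → pi w ∉ W →
    (∃ d ∈ P, pi d ∈ W) → ∃ d ∈ P, pi d ∈ W ∧ pi (al0 d) ∉ W

variable {al0 al : D → D} {ds0 ds : Finset D} {pi : D → V} {bl : V → N} {PN' ns0 ns : Finset N}
variable {T : D → List D} {c : D} {q : N} {O S : Finset N} {lam : ℕ}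

theorem mem_rd {d : D} : d ∈ rd ds0 pi bl ns ↔ d ∈ ds0 ∧ bl (pi d) ∈ ns := by
  unfold rd
  rw [mem_filter]

/-- the colour of a dart at a pair node: which of the two vertices -/
noncomputable def cl (pi : D → V) (bl : V → N) (r : N → V) (d : D) : Bool :=
  decide (pi d = r (bl (pi d)))

theorem cl_ne {r : N → V} {d e : D} (h : cl pi bl r d ≠ cl pi bl r e) : pi d ≠ pi e := by
  intro h1
  apply h
  unfold cl
  rw [h1]

/-- passes of the chain: the two vertices of a pair lose the same number of darts -/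
theorem pass_count {R : D → D → Prop} {u v : V} :
    ∀ (l : List D) (d : D), (d :: l).IsChain R → (∀ a b, b ∈ l → R a b →
      (if pi (al0 a) = u then 1 else 0) + (if pi b = u then 1 else 0) =
        (if pi (al0 a) = v then 1 else 0) + (if pi b = v then 1 else 0)) →
      ∀ e ∈ (d :: l).getLast?, l.countP (fun b => pi b = u) +
        (d :: l).countP (fun b => pi (al0 b) = u) + (if pi (al0 e) = v then 1 else 0) =
        l.countP (fun b => pi b = v) + (d :: l).countP (fun b => pi (al0 b) = v) +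
          (if pi (al0 e) = u then 1 else 0) := by
  intro l
  induction l with
  | nil =>
    intro d _ _ e he
    simp only [List.getLast?_singleton, Option.mem_def, Option.some.injEq] at he
    subst he
    simp only [List.countP_nil, List.countP_cons, decide_eq_true_eq]
    omega
  | cons b l ih =>
    intro d hc hR e he
    rw [List.isChain_cons_cons] at hc
    have h1 := ih b hc.2 (fun a b' hb' => hR a b' (List.mem_cons_of_mem _ hb')) e (by
      rw [List.getLast?_cons_cons] at he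
      exact he)
    have h2 := hR d b List.mem_cons_self hc.1
    rw [List.countP_cons (p := fun b => decide (pi b = u)) (a := b),
      List.countP_cons (p := fun b => decide (pi b = v)) (a := b),
      List.countP_cons (p := fun b => decide (pi (al0 b) = u)) (a := d),
      List.countP_cons (p := fun b => decide (pi (al0 b) = v)) (a := d)]
    simp only [decide_eq_true_eq]
    omega

/-- the trail is left and entered -/
theorem hit_list {R : D → D → Prop} {W : Finset V} :
    ∀ (l : List D) (d : D), (d :: l).IsChain R →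
      (∀ a b, b ∈ l → R a b → (pi (al0 a) ∈ W ↔ pi b ∈ W)) → pi d ∉ W →
      (∃ e ∈ d :: l, pi e ∈ W ∨ pi (al0 e) ∈ W) → ∃ f ∈ d :: l, pi f ∉ W ∧ pi (al0 f) ∈ W := by
  intro l
  induction l with
  | nil =>
    rintro d _ _ h1 ⟨e, he, h2⟩
    rw [List.mem_singleton] at he
    subst he
    exact ⟨e, List.mem_singleton_self e, h1, h2.resolve_left h1⟩
  | cons b l ih =>
    rintro d hc hR h1 ⟨e, he, h2⟩
    by_cases h3 : pi (al0 d) ∈ W
    · exact ⟨d, List.mem_cons_self, h1, h3⟩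
    · rw [List.isChain_cons_cons] at hc
      have h4 : pi b ∉ W := fun h5 => h3 ((hR d b List.mem_cons_self hc.1).2 h5)
      have h5 : e ∈ b :: l := by
        rcases List.mem_cons.1 he with h5 | h5
        · subst h5
          exact absurd h2 (not_or.2 ⟨h1, h3⟩)
        · exact h5
      obtain ⟨f, hf, h6⟩ := ih b hc.2 (fun a b' hb' => hR a b' (List.mem_cons_of_mem _ hb')) h4
        ⟨e, h5, h2⟩
      exact ⟨f, List.mem_cons_of_mem _ hf, h6⟩

/-- the base system has the pair nodes required by the growth -/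
theorem Bs.exists_col (hb : Bs al0 ds0 pi bl PN' ns0) (v0 : V) :
    ∃ r : N → V, ∀ p ∈ PN', PN ds0 (nn pi bl) (cl pi bl r) p := by
  have h1 : ∀ p, ∃ u, p ∈ PN' → ∃ v, u ≠ v ∧ ∀ w, bl w = p ↔ (w = u ∨ w = v) := by
    intro p
    by_cases hp : p ∈ PN'
    · obtain ⟨u, v, h1⟩ := hb.pair p hp
      exact ⟨u, fun _ => ⟨v, h1⟩⟩
    · exact ⟨v0, fun h => absurd h hp⟩
  choose r hr using h1
  refine ⟨r, fun p hp k => ?_⟩
  obtain ⟨v, huv, hw⟩ := hr p hp
  have hu : bl (r p) = p := (hw _).2 (Or.inl rfl)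
  have hv : bl v = p := (hw _).2 (Or.inr rfl)
  cases k with
  | true =>
    rw [← hb.two (r p) (by rw [hu]; exact hp)]
    congr 1
    ext d
    rw [mem_cdt, mem_filter]
    unfold cl nn
    rw [decide_eq_true_eq]
    constructor
    · rintro ⟨h1, h2, h3⟩
      exact ⟨h1, by rw [h3, h2]⟩
    · rintro ⟨h1, h2⟩
      exact ⟨h1, by rw [h2, hu], by rw [h2, hu]⟩
  | false =>
    rw [← hb.two v (by rw [hv]; exact hp)]
    congr 1
    ext d
    rw [mem_cdt, mem_filter]
    unfold cl nn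
    rw [decide_eq_false_iff_not]
    constructor
    · rintro ⟨h1, h2, h3⟩
      rw [h2] at h3
      exact ⟨h1, ((hw _).1 h2).resolve_left h3⟩
    · rintro ⟨h1, h2⟩
      refine ⟨h1, by rw [h2, hv], ?_⟩
      rw [h2, hv]
      exact huv.symm

/-- the nodes which are split are pair nodes -/
theorem Grown.S_sub {col : D → Bool} (hb : Bs al0 ds0 pi bl PN' ns0)
    (h : Grown al0 ds0 (nn pi bl) q O col S al ds T c) (hter : ∀ p ∈ ns0, p ∉ PN' → p = q ∨ p ∈ O)
    {p : N} (hp : p ∈ S) : p ∈ ns0 ∧ p ∈ PN' := by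
  obtain ⟨e, he, hep⟩ := h.on p hp
  have h1 : p ∈ ns0 := by
    rw [← hep]
    exact hb.mem e (h.lf.sub _ h.cd _ he)
  refine ⟨h1, ?_⟩
  by_contra h2
  rcases hter p h1 h2 with h3 | h3
  · exact h.Sq (h3 ▸ hp)
  · exact disjoint_left.1 h.SO hp h3

theorem Grown.rd_eq {col : D → Bool} (hb : Bs al0 ds0 pi bl PN' ns0)
    (h : Grown al0 ds0 (nn pi bl) q O col S al ds T c) : ds = rd ds0 pi bl (ns0 \ S) := by
  ext d
  rw [h.mem, mem_rd, mem_sdiff]
  constructor
  · rintro ⟨h1, h2⟩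
    exact ⟨h1, hb.mem d h1, h2⟩
  · rintro ⟨h1, h2, h3⟩
    exact ⟨h1, h3⟩

/-- from the growth to the interface -/
theorem Grown.out {r : N → V} (hb : Bs al0 ds0 pi bl PN' ns0)
    (h : Grown al0 ds0 (nn pi bl) q O (cl pi bl r) S al ds T c)
    (hter : ∀ p ∈ ns0, p ∉ PN' → p = q ∨ p ∈ O) (hq : q ∈ ns0) (hqP : q ∉ PN')
    (hO : O ⊆ ns0) (hOP : Disjoint O PN') :
    Out al0 ds0 pi bl PN' ns0 al (ns0 \ S) (KK al0 T c) c (al c) := by
  have hds := h.rd_eq hb
  have hac := h.sys.mem _ h.cd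
  have hcq : bl (pi c) = q := h.cq
  have hcO : bl (pi (al c)) ∈ O := h.cO
  -- a chain relation
  have hrel : ∀ a b, a ∈ T c → b ∈ (T c).tail → Nx al0 ds0 (nn pi bl) q (cl pi bl r) a b →
      bl (pi (al0 a)) = bl (pi b) ∧ pi (al0 a) ≠ pi b := by
    intro a b _ _ h1
    exact ⟨h1.1, cl_ne h1.2.2.2⟩
  obtain ⟨l, hl⟩ := h.cons h.cd
  have hchain := h.lf.chain c h.cd
  have htail : ∀ b ∈ l, b ∈ ds0 ∧ bl (pi b) ∈ S := fun b hb' => h.tail h.cd hl hb'
  have hlast := h.lf.last c h.cd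
  have hmemK : ∀ d, d ∈ KK al0 T c ↔ d ∈ T c ∨ d ∈ T (al c) := fun d => h.KK_iff
  have hends : ∀ d ∈ KK al0 T c, bl (pi d) ∉ S → d = c ∨ d = al c := by
    intro d hd hdS
    rcases (hmemK d).1 hd with h1 | h1
    · rw [hl] at h1
      rcases List.mem_cons.1 h1 with h2 | h2
      · exact Or.inl h2
      · exact absurd (htail d h2).2 hdS
    · obtain ⟨l', hl'⟩ := h.cons hac
      rw [hl'] at h1
      rcases List.mem_cons.1 h1 with h2 | h2
      · exact Or.inr h2
      · exact absurd (h.tail hac hl' h2).2 hdS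
  refine ⟨?_, sdiff_subset, ?_, h.KK_sub, fun d hd => h.KK_al hd, ?_, ?_, rfl, ?_, ?_, ?_, ?_, ?_,
    ?_, ?_, ?_, ?_⟩
  · rw [← hds]
    exact h.sys
  · intro p hp hpP
    refine mem_sdiff.2 ⟨hp, fun h1 => hpP (h.S_sub hb hter h1).2⟩
  · exact (hmemK _).2 (Or.inl (h.self_mem h.cd))
  · exact (hmemK _).2 (Or.inr (h.self_mem hac))
  · rw [hcq]
    exact mem_sdiff.2 ⟨hq, h.Sq⟩
  · exact mem_sdiff.2 ⟨hO hcO, fun h1 => disjoint_left.1 h.SO h1 hcO⟩
  · rw [hcq]
    exact hqP
  · exact disjoint_left.1 hOP hcO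
  · intro d hd hdn
    exact hends d hd (mem_sdiff.1 hdn).2
  · intro p hp hpn
    have h1 : p ∈ S := by
      by_contra h2
      exact hpn (mem_sdiff.2 ⟨hp, h2⟩)
    obtain ⟨e, he, hep⟩ := h.on p h1
    exact ⟨e, (hmemK _).2 (Or.inl he), hep⟩
  · intro u v huv huP
    by_cases huS : bl u ∈ S
    · by_cases hne : u = v
      · rw [hne]
      -- counting on the list
      have hcard : ∀ y : V, bl y = bl u → ((KK al0 T c).filter fun d => pi d = y).card =
          l.countP (fun b => pi b = y) + (c :: l).countP (fun b => pi (al0 b) = y) := by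
        intro y hy
        have hyc : pi c ≠ y := by
          intro h1
          apply h.Sq
          rw [← hcq, h1, hy]
          exact huS
        have h1 : (KK al0 T c).filter (fun d => pi d = y) =
            ((T c).filter fun b => pi b = y).toFinset ∪
              (((T c).map al0).filter fun b => pi b = y).toFinset := by
          ext d
          rw [mem_filter, mem_KK, mem_union, List.mem_toFinset, List.mem_toFinset, List.mem_filter,
            List.mem_filter, decide_eq_true_eq]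
          tauto
        have hnd : (T c).Nodup := h.lf.nod c h.cd
        have hnd2 : ((T c).map al0).Nodup := by
          refine List.Nodup.map_on (fun a ha b hb' hab => ?_) hnd
          exact h.sys0.inj (h.lf.sub _ h.cd _ ha) (h.lf.sub _ h.cd _ hb') hab
        have hdis : Disjoint ((T c).filter fun b => pi b = y).toFinset
            (((T c).map al0).filter fun b => pi b = y).toFinset := by
          rw [disjoint_left]
          intro d hd hd'
          rw [List.mem_toFinset, List.mem_filter] at hd hd'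
          obtain ⟨a, ha, had⟩ := List.mem_map.1 hd'.1
          have h2 := h.one ha
          rw [had] at h2
          exact h2 hd.1
        rw [h1, card_union_of_disjoint hdis, List.toFinset_card_of_nodup (hnd.filter _),
          List.toFinset_card_of_nodup (hnd2.filter _), ← List.countP_eq_length_filter,
          ← List.countP_eq_length_filter, List.countP_map, hl, List.countP_cons]
        rw [if_neg (by simpa using hyc), add_zero]
        rfl
      obtain ⟨e, he⟩ : ∃ e, (c :: l).getLast? = some e :=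
        ⟨_, List.getLast?_eq_some_getLast (by simp)⟩
      have hxe : pi (al0 e) = pi (al c) := by
        rw [hlast e (by rw [hl]; exact he)]
      have hnx : ∀ y : V, bl y = bl u → pi (al0 e) ≠ y := by
        intro y hy h1
        rw [hxe] at h1
        rw [h1, hy] at hcO
        exact disjoint_left.1 h.SO huS hcO
      rw [hcard u rfl, hcard v huv.symm]
      have hpc := pass_count (al0 := al0) (pi := pi) (u := u) (v := v)
        (R := Nx al0 ds0 (nn pi bl) q (cl pi bl r)) l c (by rw [← hl]; exact hchain) ?_ e he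
      · rw [if_neg (hnx v huv.symm), if_neg (hnx u rfl)] at hpc
        omega
      · intro a b _ hab
        obtain ⟨h1, h2⟩ : bl (pi (al0 a)) = bl (pi b) ∧ pi (al0 a) ≠ pi b :=
          ⟨hab.1, cl_ne hab.2.2.2⟩
        obtain ⟨u0, v0, h3, h4⟩ := hb.pair _ huP
        have hu' := (h4 u).1 rfl
        have hv' := (h4 v).1 huv.symm
        by_cases h5 : bl (pi b) = bl u
        · have h6 := (h4 (pi b)).1 h5
          have h7 := (h4 (pi (al0 a))).1 (h1.trans h5)
          have key : (pi (al0 a) = u ∧ pi b = v) ∨ (pi (al0 a) = v ∧ pi b = u) := by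
            rcases hu' with rfl | rfl <;> rcases hv' with rfl | rfl <;>
              rcases h6 with h6 | h6 <;> rcases h7 with h7 | h7 <;>
              first
                | exact absurd rfl hne
                | exact absurd (h7.trans h6.symm) h2
                | exact Or.inl ⟨h7, h6⟩
                | exact Or.inr ⟨h7, h6⟩
          rcases key with ⟨k1, k2⟩ | ⟨k1, k2⟩
          · rw [if_pos k1, if_pos k2, if_neg (fun h => hne (h.symm.trans k2)),
              if_neg (fun h => hne (k1.symm.trans h))]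
          · rw [if_pos k1, if_pos k2, if_neg (fun h => hne (h.symm.trans k1)),
              if_neg (fun h => hne (k2.symm.trans h))]
        · have g1 : pi b ≠ u := fun h => h5 (by rw [h])
          have g2 : pi b ≠ v := fun h => h5 (by rw [h, huv])
          have g3 : pi (al0 a) ≠ u := fun h => h5 (by rw [← h1, h])
          have g4 : pi (al0 a) ≠ v := fun h => h5 (by rw [← h1, h, huv])
          rw [if_neg g1, if_neg g2, if_neg g3, if_neg g4]
    · have h0 : ∀ y : V, bl y = bl u → (KK al0 T c).filter (fun d => pi d = y) = ∅ := by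
        intro y hy
        rw [filter_eq_empty_iff]
        intro d hd hdy
        rcases hends d hd (by rw [hdy, hy]; exact huS) with h1 | h1
        · apply hqP
          rw [← hcq, ← h1, hdy, hy]
          exact huP
        · rw [h1] at hdy
          rw [hdy, hy] at hcO
          exact disjoint_left.1 hOP hcO huP
      rw [h0 u rfl, h0 v huv.symm]
  · intro W hW
    rw [← hds]
    have h1 := h.cmp (ν := pi) W (fun a ha b hb' hab haS => by
      refine hW _ _ hab (hb.mem a ha) fun h2 => (mem_sdiff.1 h2).2 haS)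
    have h2 : (ds0.filter fun d => pi d ∈ W ∧ pi (al0 d) ∉ W ∧ d ∉ KK al0 T c) =
        (ds0 \ KK al0 T c).filter fun d => pi d ∈ W ∧ pi (al0 d) ∉ W := by
      ext d
      rw [mem_filter, mem_filter, mem_sdiff]
      tauto
    rw [h2] at h1
    have h3 : dct al0 pi (ds0 \ KK al0 T c) W =
        ((ds0 \ KK al0 T c).filter fun d => pi d ∈ W ∧ pi (al0 d) ∉ W).card := rfl
    rw [h3]
    refine h1.trans ?_
    rw [add_assoc]
    refine Nat.add_le_add_left ?_ _
    by_cases c1 : pi c ∈ W <;> by_cases c2 : pi (al c) ∈ W <;> simp [c1, c2]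
  · intro W hW hw hd
    obtain ⟨d, hd, hdW⟩ := hd
    have h1 : ∃ e ∈ c :: l, pi e ∈ W ∨ pi (al0 e) ∈ W := by
      rcases mem_KK.1 hd with h2 | h2
      · exact ⟨d, by rw [← hl]; exact h2, Or.inl hdW⟩
      · obtain ⟨e, he, hed⟩ := List.mem_map.1 h2
        refine ⟨e, by rw [← hl]; exact he, Or.inr ?_⟩
        rw [hed]
        exact hdW
    obtain ⟨f, hf, hf1, hf2⟩ := hit_list (al0 := al0) (pi := pi) (W := W)
      (R := Nx al0 ds0 (nn pi bl) q (cl pi bl r)) l c (by rw [← hl]; exact hchain)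
      (fun a b hbl hab => hW _ _ hab.1 (by
        have h2 := (htail b hbl).2
        have h3 : bl (pi (al0 a)) = bl (pi b) := hab.1
        rw [h3]
        exact (h.S_sub hb hter h2).2)) hw h1
    rw [← hl] at hf
    have hf0 := h.lf.sub _ h.cd _ hf
    refine ⟨al0 f, h.KK_al ((hmemK f).2 (Or.inl hf)), hf2, ?_⟩
    rw [h.sys0.inv f hf0]
    exact hf1

/-- **THE CHAIN** from an edge `e0` of a minimum cut `B` -/
theorem Bs.exists_out_at (hb : Bs al0 ds0 pi bl PN' ns0) (hq : q ∈ ns0) (hqP : q ∉ PN')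
    (hO : O ⊆ ns0) (hOn : O.Nonempty) (hOP : Disjoint O PN') (hqO : q ∉ O)
    (hter : ∀ p ∈ ns0, p ∉ PN' → p = q ∨ p ∈ O)
    (h4 : ∀ W ⊆ ns0, W.Nonempty → W ≠ ns0 → 4 ≤ dct al0 (nn pi bl) ds0 W)
    {B : Finset N} (hqB : q ∈ B) (hBO : Disjoint B O)
    (hmin : ∀ W : Finset N, q ∈ W → Disjoint W O →
      dct al0 (nn pi bl) ds0 B ≤ dct al0 (nn pi bl) ds0 W)
    {e0 : D} (he0 : e0 ∈ ds0) (h5 : bl (pi e0) ∈ B) (h6 : bl (pi (al0 e0)) ∉ B) :
    ∃ al ns P w x, Out al0 ds0 pi bl PN' ns0 al ns P w x ∧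
      Rq al (rd ds0 pi bl ns) (nn pi bl) ns {q} O (dct al0 (nn pi bl) ds0 B) ∧
      bl (pi w) = q ∧ bl (pi x) ∈ O ∧ e0 ∈ P := by
  obtain ⟨r, hr⟩ := hb.exists_col (pi e0)
  -- every node has a dart
  have hdart : ∀ p ∈ ns0, ∃ d ∈ ds0, bl (pi d) = p := by
    intro p hp
    obtain ⟨u, hu⟩ := hOn
    have hne : ({p} : Finset N) ≠ ns0 := by
      intro h1
      rw [← h1, mem_singleton] at hq
      have h2 := hO hu
      rw [← h1, mem_singleton] at h2
      exact hqO (by rw [hq, ← h2]; exact hu)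
    have h1 := h4 {p} (singleton_subset_iff.2 hp) (singleton_nonempty p) hne
    obtain ⟨d, hd⟩ : (ds0.filter fun d => nn pi bl d ∈ ({p} : Finset N) ∧
        nn pi bl (al0 d) ∉ ({p} : Finset N)).Nonempty := by
      rw [← card_pos]
      have h2 : dct al0 (nn pi bl) ds0 {p} = (ds0.filter fun d => nn pi bl d ∈ ({p} : Finset N) ∧
        nn pi bl (al0 d) ∉ ({p} : Finset N)).card := rfl
      omega
    obtain ⟨h2, h3, -⟩ := mem_filter.1 hd
    exact ⟨d, h2, mem_singleton.1 h3⟩
  have hres : ∀ (a : D → D) (ds : Finset D), (∀ d ∈ ds, d ∈ ds0) → (∀ d ∈ ds, a d ∈ ds0) →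
      ∀ W : Finset N, dct a (nn pi bl) ds W = dct a (nn pi bl) ds (W ∩ ns0) := by
    intro a ds h1 h2 W
    unfold dct
    congr 1
    refine filter_congr fun d hd => ?_
    rw [mem_inter, mem_inter]
    have m1 := hb.mem d (h1 d hd)
    have m2 := hb.mem _ (h2 d hd)
    show (bl (pi d) ∈ W ∧ bl (pi (a d)) ∉ W) ↔
      ((bl (pi d) ∈ W ∧ bl (pi d) ∈ ns0) ∧ ¬ (bl (pi (a d)) ∈ W ∧ bl (pi (a d)) ∈ ns0))
    tauto
  have hu4 : ∀ W : Finset N, (∃ d ∈ ds0, nn pi bl d ∈ W) → (∃ d ∈ ds0, nn pi bl d ∉ W) →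
      4 ≤ dct al0 (nn pi bl) ds0 W := by
    rintro W ⟨d, hd, hdW⟩ ⟨e, he, heW⟩
    rw [hres al0 ds0 (fun _ h => h) (fun d hd => hb.sys.mem d hd)]
    refine h4 _ inter_subset_right ⟨_, mem_inter.2 ⟨hdW, hb.mem d hd⟩⟩ fun h1 => heW ?_
    have h2 := hb.mem e he
    rw [← h1] at h2
    exact (mem_inter.1 h2).1
  obtain ⟨S, al, ds, T, c, hG, hR, hm⟩ := exists_grown_at (col := cl pi bl r) hb.sys (hdart q hq)
    (fun u hu => hdart u (hO hu)) hqO hOn (fun d hd h1 h2 => hr _ (by
      by_contra h3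
      rcases hter _ (hb.mem d hd) h3 with h7 | h7
      · exact h1 h7
      · exact h2 h7)) hu4 hqB hBO hmin he0 h5 h6
  have hds := hG.rd_eq hb
  refine ⟨al, ns0 \ S, KK al0 T c, c, al c, hG.out hb hter hq hqP hO hOP, ?_, hG.cq, hG.cO,
    mem_KK.2 (Or.inl hm)⟩
  rw [← hds]
  refine ⟨fun W hW hWn hWne => ?_, fun W _ h1 h2 => hR.lm W (singleton_subset_iff.1 h1) h2,
    fun W _ h1 h2 => hR.lp W (singleton_subset_iff.1 h1) h2⟩
  obtain ⟨p, hp⟩ := hWn
  obtain ⟨p', hp', hpW'⟩ : ∃ p' ∈ ns0 \ S, p' ∉ W := by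
    by_contra h1
    push Not at h1
    exact hWne (Finset.Subset.antisymm hW h1)
  obtain ⟨d, hd, hdp⟩ := hdart p (mem_sdiff.1 (hW hp)).1
  obtain ⟨e, he, hep⟩ := hdart p' (mem_sdiff.1 hp').1
  refine hR.u4 W ⟨d, (hG.mem d).2 ⟨hd, ?_⟩, ?_⟩ ⟨e, (hG.mem e).2 ⟨he, ?_⟩, ?_⟩
  · show bl (pi d) ∉ S
    rw [hdp]
    exact (mem_sdiff.1 (hW hp)).2
  · show bl (pi d) ∈ W
    rw [hdp]
    exact hp
  · show bl (pi e) ∉ S
    rw [hep]
    exact (mem_sdiff.1 hp').2
  · show bl (pi e) ∉ W
    rw [hep]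
    exact hpW'

/-- there is a minimum cut, and an edge in it -/
theorem Bs.exists_min (hb : Bs al0 ds0 pi bl PN' ns0) (hq : q ∈ ns0)
    (hO : O ⊆ ns0) (hOn : O.Nonempty) (hqO : q ∉ O)
    (h4 : ∀ W ⊆ ns0, W.Nonempty → W ≠ ns0 → 4 ≤ dct al0 (nn pi bl) ds0 W) :
    ∃ B ⊆ ns0, q ∈ B ∧ Disjoint B O ∧ (∀ W : Finset N, q ∈ W → Disjoint W O →
      dct al0 (nn pi bl) ds0 B ≤ dct al0 (nn pi bl) ds0 W) ∧
      ∃ e0 ∈ ds0, bl (pi e0) ∈ B ∧ bl (pi (al0 e0)) ∉ B := by
  obtain ⟨B, hqB, hBO, hmin⟩ := exists_min_cut (al := al0) (ds := ds0) (nd := nn pi bl) hqO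
  have hres : ∀ W : Finset N, dct al0 (nn pi bl) ds0 W = dct al0 (nn pi bl) ds0 (W ∩ ns0) := by
    intro W
    unfold dct
    congr 1
    refine filter_congr fun d hd => ?_
    rw [mem_inter, mem_inter]
    have m1 := hb.mem d hd
    have m2 := hb.mem _ (hb.sys.mem d hd)
    show (bl (pi d) ∈ W ∧ bl (pi (al0 d)) ∉ W) ↔
      ((bl (pi d) ∈ W ∧ bl (pi d) ∈ ns0) ∧ ¬ (bl (pi (al0 d)) ∈ W ∧ bl (pi (al0 d)) ∈ ns0))
    tauto
  have hq' : q ∈ B ∩ ns0 := mem_inter.2 ⟨hqB, hq⟩
  have hO' : Disjoint (B ∩ ns0) O := disjoint_of_subset_left inter_subset_left hBO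
  obtain ⟨u, hu⟩ := hOn
  have h5 := h4 (B ∩ ns0) inter_subset_right ⟨q, hq'⟩ (fun h6 => by
    have h7 := hO hu
    rw [← h6] at h7
    exact disjoint_left.1 hO' h7 hu)
  obtain ⟨d, hd⟩ : (ds0.filter fun d => nn pi bl d ∈ B ∩ ns0 ∧
      nn pi bl (al0 d) ∉ B ∩ ns0).Nonempty := by
    rw [← card_pos]
    have h2 : dct al0 (nn pi bl) ds0 (B ∩ ns0) = (ds0.filter fun d => nn pi bl d ∈ B ∩ ns0 ∧
      nn pi bl (al0 d) ∉ B ∩ ns0).card := rfl
    omega
  obtain ⟨h6, h7, h8⟩ := mem_filter.1 hd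
  exact ⟨B ∩ ns0, inter_subset_right, hq', hO', fun W h1 h2 => by
    rw [← hres]
    exact hmin W h1 h2, d, h6, h7, h8⟩

/-- **THE CHAIN**: there is a minimum cut `B` such that for every edge `e0` of `B` there is a chain
through `e0` -/
theorem Bs.exists_out (hb : Bs al0 ds0 pi bl PN' ns0) {q : N} {O : Finset N} (hq : q ∈ ns0)
    (hO : O ⊆ ns0) (hqO : q ∉ O) (hqP : q ∉ PN') (hOP : Disjoint O PN') (hne : O.Nonempty)
    (hter : ∀ p ∈ ns0, p ∉ PN' → p = q ∨ p ∈ O)
    (h4 : ∀ W ⊆ ns0, W.Nonempty → W ≠ ns0 → 4 ≤ dct al0 (nn pi bl) ds0 W) :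
    ∃ B ⊆ ns0, q ∈ B ∧ Disjoint B O ∧ (∀ W ⊆ ns0, q ∈ W → Disjoint W O →
        dct al0 (nn pi bl) ds0 B ≤ dct al0 (nn pi bl) ds0 W) ∧
      (∃ e0 ∈ ds0, bl (pi e0) ∈ B ∧ bl (pi (al0 e0)) ∉ B) ∧
      ∀ e0 ∈ ds0, bl (pi e0) ∈ B → bl (pi (al0 e0)) ∉ B →
        ∃ al ns P w x, Out al0 ds0 pi bl PN' ns0 al ns P w x ∧
          Rq al (rd ds0 pi bl ns) (nn pi bl) ns {q} O (dct al0 (nn pi bl) ds0 B) ∧
          bl (pi w) = q ∧ bl (pi x) ∈ O ∧ e0 ∈ P := by
  obtain ⟨B, h1, hqB, hBO, hmin, e0, he0, h5, h6⟩ := hb.exists_min hq hO hne hqO h4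
  exact ⟨B, h1, hqB, hBO, fun W _ h2 h3 => hmin W h2 h3, ⟨e0, he0, h5, h6⟩,
    fun e0 he0 h5 h6 => hb.exists_out_at hq hqP hO hne hOP hqO hter h4 hqB hBO hmin he0 h5 h6⟩

/-- complements -/
theorem dct_compl {al : D → D} {ds : Finset D} {nd : D → N} (h : Sys al ds) {ns : Finset N}
    (hn : ∀ d ∈ ds, nd d ∈ ns) (W : Finset N) :
    dct al nd ds (ns \ W) = dct al nd ds W := by
  rw [← h.compl W]
  unfold dct
  congr 1
  refine filter_congr fun d hd => ?_
  have m1 := hn d hd
  have m2 := hn _ (h.mem d hd)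
  have m3 : nd d ∈ ds.image nd := mem_image_of_mem _ hd
  have m4 : nd (al d) ∈ ds.image nd := mem_image_of_mem _ (h.mem d hd)
  rw [mem_sdiff, mem_sdiff, mem_sdiff, mem_sdiff]
  tauto

end TL
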