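import Pool.Agent.Lib.KT.Trail

/-! # Splitting 4-valent nodes (helper2, helper74, helper71): one of two pairings keeps (U) and (Lam)

A system of darts (`KT.Sys`): nodes `q`, `O`, and 4-valent nodes. (U): every set of nodes with darts
inside and outside has degree at least 4. (Lam): sets which contain `q` and no node of `O` have degree
at least `lam`. -/

set_option autoImplicit false

namespace TL

open Finset Classical ThmQ KT

variable {N D : Type*}

/-- the requirements -/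
structure Req (al : D → D) (ds : Finset D) (nd : D → N) (q : N) (O : Finset N) (lam : ℕ) :
    Prop where
  sys : Sys al ds
  qd : ∃ d ∈ ds, nd d = q
  Od : ∀ u ∈ O, ∃ d ∈ ds, nd d = u
  qO : q ∉ O
  On : O.Nonempty
  ev : ∀ v, v ≠ q → v ∉ O → Even (dct al nd ds {v})
  u4 : ∀ W : Finset N, (∃ d ∈ ds, nd d ∈ W) → (∃ d ∈ ds, nd d ∉ W) → 4 ≤ dct al nd ds W
  lm : ∀ W : Finset N, q ∈ W → Disjoint W O → lam ≤ dct al nd ds W
  lp : ∀ W : Finset N, q ∈ W → Disjoint W O → dct al nd ds W % 2 = lam % 2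

variable {al : D → D} {ds : Finset D} {nd : D → N} {q : N} {O : Finset N} {lam : ℕ}

/-- lam-sets -/
def LT (q : N) (O W : Finset N) : Prop := (q ∈ W ∧ Disjoint W O) ∨ (q ∉ W ∧ O ⊆ W)

/-- both kinds of lam-sets -/
theorem Req.lam2 (h : Req al ds nd q O lam) {W : Finset N} (hW : LT q O W) :
    lam ≤ dct al nd ds W ∧ dct al nd ds W % 2 = lam % 2 := by
  rcases hW with ⟨h1, h2⟩ | ⟨h1, h2⟩
  · exact ⟨h.lm W h1 h2, h.lp W h1 h2⟩
  · obtain ⟨d, hd, hq⟩ := h.qd
    have h3 : q ∈ (ds.image nd) \ W := mem_sdiff.2 ⟨by rw [← hq]; exact mem_image_of_mem _ hd, h1⟩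
    have h4 : Disjoint ((ds.image nd) \ W) O := disjoint_left.2 fun v hv hvO =>
      (mem_sdiff.1 hv).2 (h2 hvO)
    have h5 := h.sys.compl (nd := nd) W
    rw [← h5]
    exact ⟨h.lm _ h3 h4, h.lp _ h3 h4⟩

/-- two darts change their partners: `p` on one side, both ends on the other -/
def alt (al : D → D) (nd : D → N) (p : N) (x y : D) (W : Finset N) : Prop :=
  (nd (al x) ∈ W ∧ nd (al y) ∈ W ∧ p ∉ W) ∨ (nd (al x) ∉ W ∧ nd (al y) ∉ W ∧ p ∈ W)

/-- a 4-valent node without loops -/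
structure Four (al : D → D) (ds : Finset D) (nd : D → N) (p : N) (x x' y y' : D) : Prop where
  hx : x ∈ ds
  hx' : x' ∈ ds
  hy : y ∈ ds
  hy' : y' ∈ ds
  px : nd x = p
  px' : nd x' = p
  py : nd y = p
  py' : nd y' = p
  n1 : x ≠ x'
  n2 : x ≠ y
  n3 : x ≠ y'
  n4 : x' ≠ y
  n5 : x' ≠ y'
  n6 : y ≠ y'
  all : ∀ d ∈ ds, nd d = p → d = x ∨ d = x' ∨ d = y ∨ d = y'
  nl : ∀ d ∈ ds, nd d = p → nd (al d) ≠ p

variable {p : N} {x x' y y' : D}

theorem Four.sw (h : Four al ds nd p x x' y y') : Four al ds nd p x x' y' y :=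
  ⟨h.hx, h.hx', h.hy', h.hy, h.px, h.px', h.py', h.py, h.n1, h.n3, h.n2, h.n5, h.n4, h.n6.symm,
    fun d h1 h2 => by rcases h.all d h1 h2 with h3 | h3 | h3 | h3 <;> tauto, h.nl⟩

/-- the new involution -/
noncomputable def al2 (al : D → D) (x x' y y' : D) : D → D := spA (spA al x y) x' y'

/-- the new darts -/
noncomputable def ds2 (ds : Finset D) (x x' y y' : D) : Finset D := spD (spD ds x y) x' y'

theorem mem_ds2 {d : D} : d ∈ ds2 ds x x' y y' ↔ d ∈ ds ∧ d ≠ x ∧ d ≠ y ∧ d ≠ x' ∧ d ≠ y' := by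
  unfold ds2
  rw [mem_spD, mem_spD]
  tauto

theorem Four.mem2 (h : Four al ds nd p x x' y y') {d : D} :
    d ∈ ds2 ds x x' y y' ↔ d ∈ ds ∧ nd d ≠ p := by
  rw [mem_ds2]
  constructor
  · rintro ⟨h1, h2, h3, h4, h5⟩
    refine ⟨h1, fun h6 => ?_⟩
    rcases h.all d h1 h6 with h7 | h7 | h7 | h7
    · exact h2 h7
    · exact h4 h7
    · exact h3 h7
    · exact h5 h7
  · rintro ⟨h1, h2⟩
    refine ⟨h1, ?_, ?_, ?_, ?_⟩
    · rintro rfl
      exact h2 h.px
    · rintro rfl
      exact h2 h.py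
    · rintro rfl
      exact h2 h.px'
    · rintro rfl
      exact h2 h.py'

theorem Four.ne_al (h : Four al ds nd p x x' y y') {d e : D} (hd : d ∈ ds) (hdp : nd d = p)
    (hep : nd e = p) : e ≠ al d := by
  intro h1
  apply h.nl d hd hdp
  rw [← h1, hep]

theorem Four.sys1 (h : Four al ds nd p x x' y y') (hS : Sys al ds) :
    Sys (spA al x y) (spD ds x y) := hS.split h.hx h.hy h.n2

theorem Four.x'1 (h : Four al ds nd p x x' y y') : x' ∈ spD ds x y :=
  mem_spD.2 ⟨h.n4, h.n1.symm, h.hx'⟩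

theorem Four.y'1 (h : Four al ds nd p x x' y y') : y' ∈ spD ds x y :=
  mem_spD.2 ⟨h.n6.symm, h.n3.symm, h.hy'⟩

theorem Four.sys2 (h : Four al ds nd p x x' y y') (hS : Sys al ds) :
    Sys (al2 al x x' y y') (ds2 ds x x' y y') :=
  (h.sys1 hS).split h.x'1 h.y'1 h.n5

theorem Four.al1 (h : Four al ds nd p x x' y y') {e : D} (he : nd e = p) :
    spA al x y e = al e := by
  unfold spA
  rw [if_neg (h.ne_al h.hx h.px he), if_neg (h.ne_al h.hy h.py he)]

/-- the partner of the far end of `x` -/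
theorem Four.alx (h : Four al ds nd p x x' y y') (hS : Sys al ds) :
    al2 al x x' y y' (al x) = al y := by
  unfold al2
  have h1 : al x ≠ al x' := fun e => h.n1 (hS.inj h.hx h.hx' e)
  have h2 : al x ≠ al y' := fun e => h.n3 (hS.inj h.hx h.hy' e)
  have h3 : spA al x y (al x) = al y := by
    unfold spA
    rw [if_pos rfl]
  unfold spA at h3 ⊢
  rw [if_neg, if_neg]
  · exact h3
  · rw [if_neg (h.ne_al h.hx h.px h.py'), if_neg (h.ne_al h.hy h.py h.py')]
    exact h2
  · rw [if_neg (h.ne_al h.hx h.px h.px'), if_neg (h.ne_al h.hy h.py h.px')]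
    exact h1

/-- degrees after the splitting of the node -/
theorem Four.dct2 (h : Four al ds nd p x x' y y') (hS : Sys al ds) (W : Finset N) :
    dct (al2 al x x' y y') nd (ds2 ds x x' y y') W + (if alt al nd p x y W then 2 else 0) +
      (if alt al nd p x' y' W then 2 else 0) = dct al nd ds W := by
  have h1 := hS.dct_split h.hx h.hy h.n2 (h.px.trans h.py.symm) W
  have h2 := (h.sys1 hS).dct_split h.x'1 h.y'1 h.n5 (h.px'.trans h.py'.symm) W
  rw [h.al1 h.px', h.al1 h.py', h.px'] at h2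
  rw [h.px] at h1
  have f1 : dct (spA al x y) nd (spD ds x y) W + (if alt al nd p x y W then 2 else 0) =
      dct al nd ds W := by
    by_cases b1 : alt al nd p x y W
    · rw [if_pos b1]
      have b1' := b1
      unfold alt at b1'
      rw [if_pos b1'] at h1
      exact h1
    · rw [if_neg b1]
      have b1' := b1
      unfold alt at b1'
      rw [if_neg b1'] at h1
      exact h1
  have f2 : dct (al2 al x x' y y') nd (ds2 ds x x' y y') W +
      (if alt al nd p x' y' W then 2 else 0) = dct (spA al x y) nd (spD ds x y) W := by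
    by_cases b1 : alt al nd p x' y' W
    · rw [if_pos b1]
      have b1' := b1
      unfold alt at b1'
      rw [if_pos b1'] at h2
      exact h2
    · rw [if_neg b1]
      have b1' := b1
      unfold alt at b1'
      rw [if_neg b1'] at h2
      exact h2
  omega

/-- the node itself does not matter after the splitting -/
theorem Four.dct_ins (h : Four al ds nd p x x' y y') (W : Finset N)
    (hS : Sys al ds) :
    dct (al2 al x x' y y') nd (ds2 ds x x' y y') (insert p W) =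
      dct (al2 al x x' y y') nd (ds2 ds x x' y y') W := by
  unfold dct
  congr 1
  refine filter_congr fun d hd => ?_
  have h1 := (h.mem2.1 hd).2
  have h2 := (h.mem2.1 ((h.sys2 hS).mem d hd)).2
  rw [mem_insert, mem_insert]
  tauto

/-- adding the node to a set -/
theorem Four.ins (h : Four al ds nd p x x' y y') (hS : Sys al ds) {W : Finset N} (hp : p ∉ W) :
    dct al nd ds (insert p W) + (if nd (al x) ∈ W ∧ nd (al y) ∈ W then 2 else 0) +
      (if nd (al x') ∈ W ∧ nd (al y') ∈ W then 2 else 0) = dct al nd ds W +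
      (if nd (al x) ∉ W ∧ nd (al y) ∉ W then 2 else 0) +
      (if nd (al x') ∉ W ∧ nd (al y') ∉ W then 2 else 0) := by
  have h1 := h.dct2 hS W
  have h2 := h.dct2 hS (insert p W)
  rw [h.dct_ins W hS] at h2
  have m1 : ∀ d ∈ ds, nd d = p → (nd (al d) ∈ insert p W ↔ nd (al d) ∈ W) := by
    intro d hd hdp
    rw [mem_insert]
    exact or_iff_right (h.nl d hd hdp)
  have e1 : alt al nd p x y W ↔ nd (al x) ∈ W ∧ nd (al y) ∈ W := by
    unfold alt
    tauto
  have e2 : alt al nd p x' y' W ↔ nd (al x') ∈ W ∧ nd (al y') ∈ W := by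
    unfold alt
    tauto
  have e3 : alt al nd p x y (insert p W) ↔ nd (al x) ∉ W ∧ nd (al y) ∉ W := by
    unfold alt
    rw [m1 x h.hx h.px, m1 y h.hy h.py]
    have := mem_insert_self p W
    tauto
  have e4 : alt al nd p x' y' (insert p W) ↔ nd (al x') ∉ W ∧ nd (al y') ∉ W := by
    unfold alt
    rw [m1 x' h.hx' h.px', m1 y' h.hy' h.py']
    have := mem_insert_self p W
    tauto
  simp only [e1, e2, e3, e4] at h1 h2
  omega

/-- a blocker of the pairing `(x y)(x' y')` -/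
structure Blk (al : D → D) (ds : Finset D) (nd : D → N) (q : N) (O : Finset N) (lam : ℕ) (p : N)
    (x x' y y' : D) (W : Finset N) : Prop where
  pW : p ∉ W
  ax : nd (al x) ∈ W
  ay : nd (al y) ∈ W
  ax' : nd (al x') ∉ W
  ay' : nd (al y') ∉ W
  low : dct al nd ds W ≤ 5 ∨ (LT q O W ∧ dct al nd ds W = lam)

/-- the complement of a blocker -/
noncomputable def cp (ds : Finset D) (nd : D → N) (p : N) (W : Finset N) : Finset N :=
  (ds.image nd \ W).erase p

theorem mem_cp {v : N} {W : Finset N} :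
    v ∈ cp ds nd p W ↔ v ≠ p ∧ v ∈ ds.image nd ∧ v ∉ W := by
  unfold cp
  rw [mem_erase, mem_sdiff]

theorem LT.cp (h : Req al ds nd q O lam) (hpq : p ≠ q) (hpO : p ∉ O) {W : Finset N}
    (hW : LT q O W) : LT q O (cp ds nd p W) := by
  obtain ⟨d, hd, hq⟩ := h.qd
  have hqi : q ∈ ds.image nd := by
    rw [← hq]
    exact mem_image_of_mem _ hd
  rcases hW with ⟨h1, h2⟩ | ⟨h1, h2⟩
  · right
    refine ⟨fun h3 => (mem_cp.1 h3).2.2 h1, fun u hu => ?_⟩
    obtain ⟨e, he, heu⟩ := h.Od u hu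
    refine mem_cp.2 ⟨fun h4 => hpO (h4 ▸ hu), ?_, fun h4 => disjoint_left.1 h2 h4 hu⟩
    rw [← heu]
    exact mem_image_of_mem _ he
  · left
    exact ⟨mem_cp.2 ⟨hpq.symm, hqi, h1⟩, disjoint_left.2 fun v hv hvO =>
      (mem_cp.1 hv).2.2 (h2 hvO)⟩

/-- degree of the complement when two legs go in and two go out -/
theorem Four.dct_cp (h : Four al ds nd p x x' y y') (hS : Sys al ds) {W : Finset N} (hp : p ∉ W)
    (ax : nd (al x) ∈ W) (ay : nd (al y) ∈ W) (ax' : nd (al x') ∉ W) (ay' : nd (al y') ∉ W) :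
    dct al nd ds (cp ds nd p W) = dct al nd ds W := by
  have h1 := hS.compl (nd := nd) (insert p W)
  have h2 : ds.image nd \ insert p W = cp ds nd p W := by
    ext v
    rw [mem_sdiff, mem_insert, mem_cp, not_or]
    tauto
  rw [h2] at h1
  rw [h1]
  have h3 := h.ins hS hp
  rw [if_pos ⟨ax, ay⟩, if_neg (fun h4 => ax' h4.1), if_neg (fun h4 => h4.1 ax),
    if_pos ⟨ax', ay'⟩] at h3
  omega

/-- the complement blocks the same pairing -/
theorem Blk.comp (hR : Req al ds nd q O lam) (h : Four al ds nd p x x' y y') (hpq : p ≠ q)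
    (hpO : p ∉ O) {W : Finset N} (pW : p ∉ W)
    (ax : nd (al x) ∉ W) (ay : nd (al y) ∉ W) (ax' : nd (al x') ∈ W) (ay' : nd (al y') ∈ W)
    (low : dct al nd ds W ≤ 5 ∨ (LT q O W ∧ dct al nd ds W = lam)) :
    Blk al ds nd q O lam p x x' y y' (cp ds nd p W) := by
  have h' : Four al ds nd p x' x y' y :=
    ⟨h.hx', h.hx, h.hy', h.hy, h.px', h.px, h.py', h.py, h.n1.symm, h.n5, h.n4, h.n3, h.n2,
      h.n6.symm, fun d h1 h2 => by rcases h.all d h1 h2 with h3 | h3 | h3 | h3 <;> tauto, h.nl⟩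
  have h1 := h'.dct_cp hR.sys pW ax' ay' ax ay
  have him : ∀ d ∈ ds, nd d = p → nd (al d) ∉ W → nd (al d) ∈ cp ds nd p W := by
    intro d hd hdp hn
    exact mem_cp.2 ⟨h.nl d hd hdp, mem_image_of_mem _ (hR.sys.mem d hd), hn⟩
  refine ⟨fun h2 => (mem_cp.1 h2).1 rfl, him x h.hx h.px ax, him y h.hy h.py ay,
    fun h2 => (mem_cp.1 h2).2.2 ax', fun h2 => (mem_cp.1 h2).2.2 ay', ?_⟩
  rw [h1]
  rcases low with h2 | ⟨h2, h3⟩
  · exact Or.inl h2
  · exact Or.inr ⟨h2.cp hR hpq hpO, h3⟩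

/-- if there is no blocker the requirements are kept -/
theorem Req.split (hR : Req al ds nd q O lam) (h : Four al ds nd p x x' y y') (hpq : p ≠ q)
    (hpO : p ∉ O) (hb : ∀ W, ¬ Blk al ds nd q O lam p x x' y y' W) :
    Req (al2 al x x' y y') (ds2 ds x x' y y') nd q O lam := by
  have hS := hR.sys
  -- values
  have main : ∀ W : Finset N, (∃ d ∈ ds, nd d ∈ W ∧ nd d ≠ p) → (∃ d ∈ ds, nd d ∉ W ∧ nd d ≠ p) →
      dct (al2 al x x' y y') nd (ds2 ds x x' y y') W = dct al nd ds (insert p W) ∨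
      dct (al2 al x x' y y') nd (ds2 ds x x' y y') W = dct al nd ds (W.erase p) ∨
      (∃ W', Blk al ds nd q O lam p x x' y y' W' ) ∨
      (∃ W', p ∉ W' ∧ dct (al2 al x x' y y') nd (ds2 ds x x' y y') W + 2 = dct al nd ds W' ∧
        6 ≤ dct al nd ds W' ∧ (LT q O W → dct al nd ds W' ≠ lam ∧ LT q O W')) := by
    intro W hin hout
    set W0 := W.erase p with hW0
    have hpW0 : p ∉ W0 := fun h1 => (mem_erase.1 h1).1 rfl
    have hins : insert p W0 = insert p W := by
      ext v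
      rw [mem_insert, mem_insert, hW0, mem_erase]
      tauto
    have e0 : dct (al2 al x x' y y') nd (ds2 ds x x' y y') W =
        dct (al2 al x x' y y') nd (ds2 ds x x' y y') W0 := by
      rw [← h.dct_ins W hS, ← hins, h.dct_ins W0 hS]
    have h1 := h.dct2 hS W0
    have h2 := h.ins hS hpW0
    have e1 : alt al nd p x y W0 ↔ nd (al x) ∈ W0 ∧ nd (al y) ∈ W0 := by
      unfold alt
      tauto
    have e2 : alt al nd p x' y' W0 ↔ nd (al x') ∈ W0 ∧ nd (al y') ∈ W0 := by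
      unfold alt
      tauto
    simp only [e1, e2] at h1
    rw [e0]
    rw [← hins]
    have hLT : LT q O W → LT q O W0 := by
      rintro (⟨h3, h4⟩ | ⟨h3, h4⟩)
      · exact Or.inl ⟨mem_erase.2 ⟨hpq.symm, h3⟩, disjoint_of_subset_left (erase_subset _ _) h4⟩
      · exact Or.inr ⟨fun h5 => h3 (mem_erase.1 h5).2,
          fun u hu => mem_erase.2 ⟨fun h5 => hpO (h5 ▸ hu), h4 hu⟩⟩
    by_cases c1 : nd (al x) ∈ W0 <;> by_cases c2 : nd (al y) ∈ W0 <;>
      by_cases c3 : nd (al x') ∈ W0 <;> by_cases c4 : nd (al y') ∈ W0 <;>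
      simp only [c1, c2, c3, c4, and_true, and_false, not_true_eq_false, not_false_eq_true, if_true,
        if_false, and_self] at h1 h2
    all_goals first
      | (left; omega)
      | (right; left; omega)
      | skip
    · right
      right
      by_cases hlow : dct al nd ds W0 ≤ 5 ∨ (LT q O W0 ∧ dct al nd ds W0 = lam)
      · exact Or.inl ⟨W0, hpW0, c1, c2, c3, c4, hlow⟩
      · right
        rw [not_or, not_le] at hlow
        refine ⟨W0, hpW0, by omega, hlow.1, fun h3 => ⟨fun h4 => hlow.2 ⟨hLT h3, h4⟩, hLT h3⟩⟩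
    · right
      right
      by_cases hlow : dct al nd ds W0 ≤ 5 ∨ (LT q O W0 ∧ dct al nd ds W0 = lam)
      · exact Or.inl ⟨_, Blk.comp hR h hpq hpO hpW0 c1 c2 c3 c4 hlow⟩
      · right
        rw [not_or, not_le] at hlow
        refine ⟨W0, hpW0, by omega, hlow.1, fun h3 => ⟨fun h4 => hlow.2 ⟨hLT h3, h4⟩, hLT h3⟩⟩
  have par : ∀ W : Finset N, dct (al2 al x x' y y') nd (ds2 ds x x' y y') W % 2 =
      dct al nd ds W % 2 := by
    intro W
    have h1 := h.dct2 hS W
    by_cases b1 : alt al nd p x y W <;> by_cases b2 : alt al nd p x' y' W <;>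
      simp only [b1, b2, if_true, if_false] at h1 <;> omega
  have hm2 : ∀ d ∈ ds, nd d ≠ p → d ∈ ds2 ds x x' y y' := fun d h1 h2 => h.mem2.2 ⟨h1, h2⟩
  refine ⟨h.sys2 hS, ?_, ?_, hR.qO, hR.On, ?_, ?_, ?_, ?_⟩
  · obtain ⟨d, hd, hq⟩ := hR.qd
    exact ⟨d, hm2 d hd (by rw [hq]; exact hpq.symm), hq⟩
  · intro u hu
    obtain ⟨d, hd, hq⟩ := hR.Od u hu
    exact ⟨d, hm2 d hd (by rw [hq]; exact fun h1 => hpO (h1 ▸ hu)), hq⟩
  · intro v h1 h2
    have h3 := hR.ev v h1 h2
    rw [Nat.even_iff] at h3 ⊢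
    rw [par, h3]
  · rintro W ⟨d, hd, hdW⟩ ⟨e, he, heW⟩
    obtain ⟨hd1, hd2⟩ := h.mem2.1 hd
    obtain ⟨he1, he2⟩ := h.mem2.1 he
    rcases main W ⟨d, hd1, hdW, hd2⟩ ⟨e, he1, heW, he2⟩ with h1 | h1 | ⟨W', h1⟩ | ⟨W', -, h1, h2, -⟩
    · rw [h1]
      refine hR.u4 _ ⟨d, hd1, mem_insert_of_mem hdW⟩ ⟨e, he1, fun h2 => ?_⟩
      rcases mem_insert.1 h2 with h3 | h3
      · exact he2 h3
      · exact heW h3
    · rw [h1]
      exact hR.u4 _ ⟨d, hd1, mem_erase.2 ⟨hd2, hdW⟩⟩ ⟨e, he1, fun h2 => heW (mem_erase.1 h2).2⟩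
    · exact absurd h1 (hb W')
    · omega
  · intro W hq hO
    obtain ⟨d, hd, hdq⟩ := hR.qd
    obtain ⟨u, hu⟩ := hR.On
    obtain ⟨e, he, heu⟩ := hR.Od u hu
    rcases main W ⟨d, hd, by rw [hdq]; exact hq, by rw [hdq]; exact hpq.symm⟩
      ⟨e, he, by rw [heu]; exact fun h1 => disjoint_left.1 hO h1 hu,
        by rw [heu]; exact fun h1 => hpO (h1 ▸ hu)⟩ with h1 | h1 | ⟨W', h1⟩ | ⟨W', -, h1, h2, h3⟩
    · rw [h1]
      exact hR.lm _ (mem_insert_of_mem hq) (by
        rw [disjoint_insert_left]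
        exact ⟨hpO, hO⟩)
    · rw [h1]
      exact hR.lm _ (mem_erase.2 ⟨hpq.symm, hq⟩)
        (disjoint_of_subset_left (erase_subset _ _) hO)
    · exact absurd h1 (hb W')
    · obtain ⟨h4, h5⟩ := h3 (Or.inl ⟨hq, hO⟩)
      obtain ⟨h6, h7⟩ := hR.lam2 h5
      omega
  · intro W hq hO
    rw [par]
    exact hR.lp W hq hO

/-- the quadrant count: not both pairings are blocked -/
theorem quad (hR : Req al ds nd q O lam) (h : Four al ds nd p x x' y y') (hpq : p ≠ q)
    (hpO : p ∉ O) {W W' : Finset N} (h1 : Blk al ds nd q O lam p x x' y y' W)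
    (h2 : Blk al ds nd q O lam p x x' y' y W') : False := by
  have hS := hR.sys
  -- degrees
  have s1 := hS.sub (nd := nd) W W'
  have s2 := hS.posi (nd := nd) W W'
  have hpU : p ∉ W ∪ W' := fun h3 => (mem_union.1 h3).elim h1.pW h2.pW
  have i1 : nd (al x) ∈ W ∩ W' := mem_inter.2 ⟨h1.ax, h2.ax⟩
  have i2 : nd (al y) ∈ W \ W' := mem_sdiff.2 ⟨h1.ay, h2.ay'⟩
  have i3 : nd (al y') ∈ W' \ W := mem_sdiff.2 ⟨h2.ay, h1.ay'⟩
  have i4 : nd (al x') ∉ W ∪ W' := fun h3 => (mem_union.1 h3).elim h1.ax' h2.ax'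
  have hins := h.ins hS hpU
  rw [if_pos ⟨mem_union_left _ h1.ax, mem_union_left _ h1.ay⟩, if_neg (fun h3 => i4 h3.1),
    if_neg (fun h3 => h3.1 (mem_union_left _ h1.ax)),
    if_neg (fun h3 => h3.2 (mem_union_right _ h2.ay))] at hins
  have hcomp := hS.compl (nd := nd) (insert p (W ∪ W'))
  set Dq := ds.image nd \ insert p (W ∪ W') with hDq
  have i4' : nd (al x') ∈ Dq := by
    refine mem_sdiff.2 ⟨mem_image_of_mem _ (hS.mem _ h.hx'), fun h3 => ?_⟩
    rcases mem_insert.1 h3 with h4 | h4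
    · exact h.nl x' h.hx' h.px' h4
    · exact i4 h4
  have hpos : 1 ≤ (ds.filter fun d => nd d ∈ W ∧ nd d ∈ W' ∧ nd (al d) ∉ W' ∧
      nd (al d) ∉ W).card := by
    refine card_pos.2 ⟨al x, mem_filter.2 ⟨hS.mem _ h.hx, h1.ax, h2.ax, ?_⟩⟩
    rw [hS.inv x h.hx, h.px]
    exact ⟨h2.pW, h1.pW⟩
  -- each quadrant has a dart inside and outside
  have hpd : ∀ X : Finset N, p ∉ X → ∃ d ∈ ds, nd d ∉ X := fun X hX => ⟨x, h.hx, by rw [h.px]; exact hX⟩
  have hdd : ∀ (X : Finset N), ∀ d ∈ ds, nd (al d) ∈ X → ∃ d ∈ ds, nd d ∈ X :=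
    fun X d hd hX => ⟨al d, hS.mem d hd, hX⟩
  have dA := hR.u4 (W ∩ W') (hdd _ x h.hx i1) (hpd _ fun h3 => h1.pW (mem_inter.1 h3).1)
  have dB := hR.u4 (W \ W') (hdd _ y h.hy i2) (hpd _ fun h3 => h1.pW (mem_sdiff.1 h3).1)
  have dC := hR.u4 (W' \ W) (hdd _ y' h.hy' i3) (hpd _ fun h3 => h2.pW (mem_sdiff.1 h3).1)
  have dD := hR.u4 Dq (hdd _ x' h.hx' i4') (hpd _ fun h3 =>
    (mem_sdiff.1 h3).2 (mem_insert_self _ _))
  have p1 := hS.par_sdiff (nd := nd) W W'
  have p2 := hS.par_sdiff (nd := nd) W' W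
  rw [inter_comm W' W] at p2
  have p3 := hS.par_inter_union (nd := nd) W W'
  -- `q` lies in one of the quadrants
  obtain ⟨dq, hdq, hq⟩ := hR.qd
  have hqi : q ∈ ds.image nd := by
    rw [← hq]
    exact mem_image_of_mem _ hdq
  have hOi : ∀ u ∈ O, u ∈ ds.image nd := by
    intro u hu
    obtain ⟨e, he, heu⟩ := hR.Od u hu
    rw [← heu]
    exact mem_image_of_mem _ he
  have hqD : q ∉ W → q ∉ W' → q ∈ Dq := by
    intro h3 h4
    refine mem_sdiff.2 ⟨hqi, fun h5 => ?_⟩
    rcases mem_insert.1 h5 with h6 | h6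
    · exact hpq h6.symm
    · exact (mem_union.1 h6).elim h3 h4
  have hDn : ∀ v ∈ Dq, v ∉ W ∧ v ∉ W' := by
    intro v hv
    have h3 := (mem_sdiff.1 hv).2
    exact ⟨fun h4 => h3 (mem_insert_of_mem (mem_union_left _ h4)),
      fun h4 => h3 (mem_insert_of_mem (mem_union_right _ h4))⟩
  -- the quadrant of `q` is a lam-set if W or W' is one
  have key : ∀ X : Finset N, (X = W ∨ X = W') → LT q O X →
      lam + 4 ≤ dct al nd ds (W ∩ W') + dct al nd ds Dq ∨
      lam + 4 ≤ dct al nd ds (W \ W') + dct al nd ds (W' \ W) := by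
    intro X hX hLX
    by_cases q1 : q ∈ W <;> by_cases q2 : q ∈ W'
    · left
      have h3 := hR.lm (W ∩ W') (mem_inter.2 ⟨q1, q2⟩) (by
        rw [disjoint_left]
        intro v hv hvO
        obtain ⟨h4, h5⟩ := mem_inter.1 hv
        rcases hLX with ⟨-, h6⟩ | ⟨h6, -⟩
        · rcases hX with rfl | rfl
          · exact disjoint_left.1 h6 h4 hvO
          · exact disjoint_left.1 h6 h5 hvO
        · rcases hX with rfl | rfl
          · exact h6 q1
          · exact h6 q2)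
      omega
    · right
      have h3 := hR.lm (W \ W') (mem_sdiff.2 ⟨q1, q2⟩) (by
        rw [disjoint_left]
        intro v hv hvO
        obtain ⟨h4, h5⟩ := mem_sdiff.1 hv
        rcases hX with rfl | rfl
        · rcases hLX with ⟨-, h6⟩ | ⟨h6, -⟩
          · exact disjoint_left.1 h6 h4 hvO
          · exact h6 q1
        · rcases hLX with ⟨h6, -⟩ | ⟨-, h6⟩
          · exact q2 h6
          · exact h5 (h6 hvO))
      omega
    · right
      have h3 := hR.lm (W' \ W) (mem_sdiff.2 ⟨q2, q1⟩) (by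
        rw [disjoint_left]
        intro v hv hvO
        obtain ⟨h4, h5⟩ := mem_sdiff.1 hv
        rcases hX with rfl | rfl
        · rcases hLX with ⟨h6, -⟩ | ⟨-, h6⟩
          · exact q1 h6
          · exact h5 (h6 hvO)
        · rcases hLX with ⟨-, h6⟩ | ⟨h6, -⟩
          · exact disjoint_left.1 h6 h4 hvO
          · exact h6 q2)
      omega
    · left
      have h3 := hR.lm Dq (hqD q1 q2) (by
        rw [disjoint_left]
        intro v hv hvO
        obtain ⟨h4, h5⟩ := hDn v hv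
        rcases hX with rfl | rfl
        · rcases hLX with ⟨h6, -⟩ | ⟨-, h6⟩
          · exact q1 h6
          · exact h4 (h6 hvO)
        · rcases hLX with ⟨h6, -⟩ | ⟨-, h6⟩
          · exact q2 h6
          · exact h5 (h6 hvO))
      omega
  -- both are lam-sets
  have key2 : LT q O W → LT q O W' →
      2 * lam ≤ dct al nd ds (W ∩ W') + dct al nd ds Dq ∨
      2 * lam ≤ dct al nd ds (W \ W') + dct al nd ds (W' \ W) := by
    intro hL hL'
    have hsub : ∀ u ∈ O, u ∉ W → u ∉ W' → u ∈ Dq := by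
      intro u hu h3 h4
      refine mem_sdiff.2 ⟨hOi u hu, fun h5 => ?_⟩
      rcases mem_insert.1 h5 with h6 | h6
      · exact hpO (h6 ▸ hu)
      · exact (mem_union.1 h6).elim h3 h4
    by_cases q1 : q ∈ W <;> by_cases q2 : q ∈ W'
    · left
      have d1 : Disjoint W O := by
        rcases hL with ⟨-, h6⟩ | ⟨h6, -⟩
        · exact h6
        · exact absurd q1 h6
      have d2 : Disjoint W' O := by
        rcases hL' with ⟨-, h6⟩ | ⟨h6, -⟩
        · exact h6
        · exact absurd q2 h6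
      have h3 := hR.lm (W ∩ W') (mem_inter.2 ⟨q1, q2⟩)
        (disjoint_of_subset_left inter_subset_left d1)
      have h4 := (hR.lam2 (W := Dq) (Or.inr ⟨fun h5 => (hDn q h5).1 q1, fun u hu =>
        hsub u hu (fun h5 => disjoint_left.1 d1 h5 hu) (fun h5 => disjoint_left.1 d2 h5 hu)⟩)).1
      omega
    · right
      have d1 : Disjoint W O := by
        rcases hL with ⟨-, h6⟩ | ⟨h6, -⟩
        · exact h6
        · exact absurd q1 h6
      have d2 : O ⊆ W' := by
        rcases hL' with ⟨h6, -⟩ | ⟨-, h6⟩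
        · exact absurd h6 q2
        · exact h6
      have h3 := hR.lm (W \ W') (mem_sdiff.2 ⟨q1, q2⟩)
        (disjoint_of_subset_left sdiff_subset d1)
      have h4 := (hR.lam2 (W := W' \ W) (Or.inr ⟨fun h5 => q2 (mem_sdiff.1 h5).1, fun u hu =>
        mem_sdiff.2 ⟨d2 hu, fun h5 => disjoint_left.1 d1 h5 hu⟩⟩)).1
      omega
    · right
      have d1 : O ⊆ W := by
        rcases hL with ⟨h6, -⟩ | ⟨-, h6⟩
        · exact absurd h6 q1
        · exact h6
      have d2 : Disjoint W' O := by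
        rcases hL' with ⟨-, h6⟩ | ⟨h6, -⟩
        · exact h6
        · exact absurd q2 h6
      have h3 := hR.lm (W' \ W) (mem_sdiff.2 ⟨q2, q1⟩)
        (disjoint_of_subset_left sdiff_subset d2)
      have h4 := (hR.lam2 (W := W \ W') (Or.inr ⟨fun h5 => q1 (mem_sdiff.1 h5).1, fun u hu =>
        mem_sdiff.2 ⟨d1 hu, fun h5 => disjoint_left.1 d2 h5 hu⟩⟩)).1
      omega
    · left
      have d1 : O ⊆ W := by
        rcases hL with ⟨h6, -⟩ | ⟨-, h6⟩
        · exact absurd h6 q1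
        · exact h6
      have d2 : O ⊆ W' := by
        rcases hL' with ⟨h6, -⟩ | ⟨-, h6⟩
        · exact absurd h6 q2
        · exact h6
      have h3 := hR.lm Dq (hqD q1 q2) (disjoint_left.2 fun v hv hvO => (hDn v hv).1 (d1 hvO))
      have h4 := (hR.lam2 (W := W ∩ W') (Or.inr ⟨fun h5 => q1 (mem_inter.1 h5).1, fun u hu =>
        mem_inter.2 ⟨d1 hu, d2 hu⟩⟩)).1
      omega
  rcases h1.low with l1 | ⟨l1, l1'⟩ <;> rcases h2.low with l2 | ⟨l2, l2'⟩
  · omega
  · rcases key W' (Or.inr rfl) l2 with h3 | h3 <;> omega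
  · rcases key W (Or.inl rfl) l1 with h3 | h3 <;> omega
  · rcases key2 l1 l2 with h3 | h3 <;> omega

/-- SPLITTING LEMMA: one of the two pairings keeps the requirements -/
theorem Req.exists_split (hR : Req al ds nd q O lam) (h : Four al ds nd p x x' y y')
    (hpq : p ≠ q) (hpO : p ∉ O) :
    Req (al2 al x x' y y') (ds2 ds x x' y y') nd q O lam ∨
      Req (al2 al x x' y' y) (ds2 ds x x' y' y) nd q O lam := by
  by_cases h1 : ∃ W, Blk al ds nd q O lam p x x' y y' W
  · right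
    obtain ⟨W, h1⟩ := h1
    exact hR.split h.sw hpq hpO fun W' h2 => quad hR h hpq hpO h1 h2
  · left
    push Not at h1
    exact hR.split h hpq hpO h1

end TL
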