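import Pool.Agent.Lib.TL.Out

/-! # Kill trails at vertex level: sets of vertices (57793 (3)) -/

set_option autoImplicit false

namespace TL

open Finset Classical ThmQ KT

variable {V N D : Type*}
variable {al0 al : D → D} {ds0 : Finset D} {pi : D → V} {bl : V → N} {PN ns0 ns : Finset N}
variable {P : Finset D} {w x : D} {T1 T2 : Finset N} {lam : ℕ}

/-- sums over darts, read from the other end -/
theorem sum_al {ds : Finset D} (h : Sys al ds) (f : D → ℤ) : ∑ d ∈ ds, f (al d) = ∑ d ∈ ds, f d := by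
  refine sum_bij (fun d _ => al d) (fun d hd => h.mem d hd) (fun a ha b hb hab => ?_)
    (fun b hb => ⟨al b, h.mem b hb, h.inv b hb⟩) (fun d _ => rfl)
  rw [← h.inv a ha, ← h.inv b hb, hab]

/-- the cut function as a sum of integers -/
theorem dct_int {M : Type*} {ds : Finset D} (nd : D → M) (W : Finset M) (a : D → ℤ)
    (ha : ∀ d ∈ ds, a d = if nd d ∈ W then 1 else 0)
    (hb : ∀ d ∈ ds, a (al d) = if nd (al d) ∈ W then 1 else 0) :
    (dct al nd ds W : ℤ) = ∑ d ∈ ds, a d * (1 - a (al d)) := by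
  rw [dct_sum]
  push_cast
  refine sum_congr rfl fun d hd => ?_
  rw [ha d hd, hb d hd]
  by_cases h1 : nd d ∈ W <;> by_cases h2 : nd (al d) ∈ W <;> simp [h1, h2]

/-- sets of vertices which cut no node -/
theorem Out.zero (hb : Bs al0 ds0 pi bl PN ns0) (ho : Out al0 ds0 pi bl PN ns0 al ns P w x)
    (hR : Rq al (rd ds0 pi bl ns) (nn pi bl) ns T1 T2 lam) {W : Finset V}
    (hW : ∀ u v, bl u = bl v → bl u ∈ ns0 → (u ∈ W ↔ v ∈ W)) (hin : ∃ u ∈ W, bl u ∈ ns)
    (hout : ∃ u, u ∉ W ∧ bl u ∈ ns) :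
    4 ≤ dct al0 pi (ds0 \ P) W + (if pi x ∈ W then 1 else 0) + (if pi w ∈ W then 1 else 0) := by
  refine le_trans ?_ (ho.cnt W fun u v h1 h2 _ => hW u v h1 h2)
  have hmem : ∀ u, bl u ∈ ns → (u ∈ W ↔ bl u ∈ ns.filter fun p => ∃ v ∈ W, bl v = p) := by
    intro u hu
    rw [mem_filter]
    constructor
    · intro h1
      exact ⟨hu, u, h1, rfl⟩
    · rintro ⟨-, v, hv, hvu⟩
      exact (hW v u hvu (ho.sub (by rw [hvu]; exact hu))).1 hv
  have key : dct al (nn pi bl) (rd ds0 pi bl ns) (ns.filter fun p => ∃ v ∈ W, bl v = p) =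
      dct al pi (rd ds0 pi bl ns) W := by
    rw [dct_sum, dct_sum]
    refine sum_congr rfl fun d hd => ?_
    have h1 := hmem (pi d) (mem_rd.1 hd).2
    have h2 := hmem (pi (al d)) (mem_rd.1 (ho.sys.mem d hd)).2
    refine if_congr ?_ rfl rfl
    show bl (pi d) ∈ _ ∧ bl (pi (al d)) ∉ _ ↔ _
    rw [← h1, ← h2]
  rw [← key]
  obtain ⟨u, hu, hun⟩ := hin
  obtain ⟨v, hv, hvn⟩ := hout
  refine hR.four _ (filter_subset _ _) ⟨bl u, (hmem u hun).1 hu⟩ fun he => ?_
  apply hv
  rw [hmem v hvn, he]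
  exact hvn

/-- sets of vertices which cut exactly one node, a pair node which is not split: two live units
besides the edge joining the two vertices -/
theorem Out.one (hb : Bs al0 ds0 pi bl PN ns0) (ho : Out al0 ds0 pi bl PN ns0 al ns P w x)
    (hR : Rq al (rd ds0 pi bl ns) (nn pi bl) ns T1 T2 lam) {W : Finset V} {u1 u2 : V}
    (h12 : bl u1 = bl u2) (hp : bl u1 ∈ PN) (hpn : bl u1 ∈ ns) (h1 : u1 ∈ W) (h2 : u2 ∉ W)
    (hW : ∀ u v, bl u = bl v → bl u ∈ ns0 → bl u ≠ bl u1 → (u ∈ W ↔ v ∈ W))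
    (hout : ∃ u, u ∉ W ∧ bl u ∈ ns ∧ bl u ≠ bl u1) :
    2 ≤ dct al0 pi (ds0 \ P) W + (if pi x ∈ W then 1 else 0) + (if pi w ∈ W then 1 else 0) := by
  refine le_trans ?_ (ho.cnt W fun u v e1 e2 e3 => hW u v e1 e2 fun e4 => e3 (by rw [e4]; exact hpn))
  have hne : u1 ≠ u2 := fun e => h2 (e ▸ h1)
  -- the vertices of the node
  have hpair : ∀ v, bl v = bl u1 ↔ (v = u1 ∨ v = u2) := by
    obtain ⟨a, b, hab, hall⟩ := hb.pair _ hp
    have e1 := (hall u1).1 rfl
    have e2 := (hall u2).1 h12.symm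
    intro v
    rw [hall v]
    rcases e1 with rfl | rfl <;> rcases e2 with rfl | rfl
    · exact absurd rfl hne
    · rfl
    · rw [or_comm]
    · exact absurd rfl hne
  set R := rd ds0 pi bl ns with hRd
  have hRmem : ∀ d ∈ R, bl (pi d) ∈ ns := fun d hd => (mem_rd.1 hd).2
  have hRal : ∀ d ∈ R, bl (pi (al d)) ∈ ns := fun d hd => hRmem _ (ho.sys.mem d hd)
  set W0 : Finset N := ns.filter fun q => q ≠ bl u1 ∧ ∃ v ∈ W, bl v = q with hW0
  have hW0m : ∀ v, bl v ∈ ns → (bl v ∈ W0 ↔ (v ∈ W ∧ v ≠ u1)) := by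
    intro v hv
    rw [hW0, mem_filter]
    constructor
    · rintro ⟨-, e1, u, hu, huv⟩
      refine ⟨(hW u v huv (ho.sub (by rw [huv]; exact hv)) (by rw [huv]; exact e1)).1 hu, ?_⟩
      rintro rfl
      exact e1 rfl
    · rintro ⟨e1, e2⟩
      refine ⟨hv, fun e3 => ?_, v, e1, rfl⟩
      rcases (hpair v).1 e3 with e4 | e4
      · exact e2 e4
      · exact h2 (e4 ▸ e1)
  have hpW0 : bl u1 ∉ W0 := fun e => ((mem_filter.1 e).2.1) rfl
  -- indicator functions
  set A : D → ℤ := fun d => if bl (pi d) ∈ W0 then 1 else 0 with hA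
  set E1 : D → ℤ := fun d => if pi d = u1 then 1 else 0 with hE1
  set E2 : D → ℤ := fun d => if pi d = u2 then 1 else 0 with hE2
  have hcard : ∀ u : V, bl u = bl u1 → ∑ d ∈ R, (if pi d = u then (1 : ℤ) else 0) = 2 := by
    intro u hu
    have e1 : R.filter (fun d => pi d = u) = ds0.filter fun d => pi d = u := by
      ext d
      rw [mem_filter, mem_filter, hRd, mem_rd]
      constructor
      · rintro ⟨⟨e2, -⟩, e3⟩
        exact ⟨e2, e3⟩
      · rintro ⟨e2, e3⟩
        refine ⟨⟨e2, ?_⟩, e3⟩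
        rw [e3, hu]
        exact hpn
    rw [← sum_filter, e1, sum_const, hb.two u (by rw [hu]; exact hp)]
    norm_num
  have hS1 : ∑ d ∈ R, E1 d = 2 := hcard u1 rfl
  have hS2 : ∑ d ∈ R, E2 d = 2 := hcard u2 h12.symm
  -- the node has no loop
  have hPne : ({bl u1} : Finset N) ≠ ns := by
    intro e
    obtain ⟨u, -, e2, e3⟩ := hout
    rw [← e, mem_singleton] at e2
    exact e3 e2
  have hB : ∀ d, (if bl (pi d) ∈ ({bl u1} : Finset N) then (1 : ℤ) else 0) = E1 d + E2 d := by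
    intro d
    simp only [hE1, hE2, mem_singleton]
    rw [hpair]
    by_cases e1 : pi d = u1
    · simp [e1, hne]
    · by_cases e2 : pi d = u2
      · simp [e2, hne.symm]
      · simp [e1, e2]
  have hnl : ∀ d ∈ R, (E1 d + E2 d) * (E1 (al d) + E2 (al d)) = 0 := by
    have e1 := hR.four {bl u1} (singleton_subset_iff.2 hpn) (singleton_nonempty _) hPne
    have e2 := dct_int (al := al) (ds := R) (nn pi bl) {bl u1} (fun d => E1 d + E2 d)
      (fun d _ => (hB d).symm) (fun d _ => (hB (al d)).symm)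
    have e3 : ∑ d ∈ R, (E1 d + E2 d) * (1 - (E1 (al d) + E2 (al d))) =
        4 - ∑ d ∈ R, (E1 d + E2 d) * (E1 (al d) + E2 (al d)) := by
      have e4 : ∑ d ∈ R, (E1 d + E2 d) = 4 := by
        rw [sum_add_distrib, hS1, hS2]
        norm_num
      rw [← e4, ← sum_sub_distrib]
      exact sum_congr rfl fun d _ => by ring
    have e5 : ∀ d ∈ R, 0 ≤ (E1 d + E2 d) * (E1 (al d) + E2 (al d)) := by
      intro d _
      rw [← hB, ← hB]
      split_ifs <;> norm_num
    have e6 : ∑ d ∈ R, (E1 d + E2 d) * (E1 (al d) + E2 (al d)) ≤ 0 := by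
      have e7 : (4 : ℤ) ≤ (dct al (nn pi bl) R {bl u1} : ℕ) := by exact_mod_cast e1
      rw [e2, e3] at e7
      linarith
    exact (sum_eq_zero_iff_of_nonneg e5).1 (le_antisymm e6 (sum_nonneg e5))
  have h01 : ∀ d, (E1 d = 0 ∨ E1 d = 1) ∧ (E2 d = 0 ∨ E2 d = 1) := by
    intro d
    simp only [hE1, hE2]
    constructor <;> split_ifs <;> simp
  have hnn : ∀ d ∈ R, E1 d * E1 (al d) = 0 ∧ E1 d * E2 (al d) = 0 ∧ E2 d * E1 (al d) = 0 ∧
      E2 d * E2 (al d) = 0 := by
    intro d hd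
    have e1 := hnl d hd
    rcases (h01 d).1 with a1 | a1 <;> rcases (h01 d).2 with a2 | a2 <;>
      rcases (h01 (al d)).1 with a3 | a3 <;> rcases (h01 (al d)).2 with a4 | a4 <;>
      rw [a1, a2, a3, a4] at e1 <;> rw [a1, a2, a3, a4] <;> revert e1 <;> norm_num
  -- the three cuts
  have hcW : (dct al pi R W : ℤ) = ∑ d ∈ R, (A d + E1 d) * (1 - (A (al d) + E1 (al d))) := by
    have e0 : ∀ v, bl v ∈ ns → (if bl v ∈ W0 then (1 : ℤ) else 0) + (if v = u1 then 1 else 0) =
        if v ∈ W then 1 else 0 := by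
      intro v hv
      have e1 := hW0m v hv
      by_cases e2 : v = u1
      · have e3 : bl v ∉ W0 := by rw [e2]; exact hpW0
        have e4 : v ∈ W := by rw [e2]; exact h1
        rw [if_neg e3, if_pos e2, if_pos e4]
        norm_num
      · rw [if_neg e2, add_zero]
        exact if_congr ⟨fun e3 => (e1.1 e3).1, fun e3 => e1.2 ⟨e3, e2⟩⟩ rfl rfl
    exact dct_int (al := al) (ds := R) pi W (fun d => A d + E1 d)
      (fun d hd => e0 _ (hRmem d hd)) (fun d hd => e0 _ (hRal d hd))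
  have hcW0 : (dct al (nn pi bl) R W0 : ℤ) = ∑ d ∈ R, A d * (1 - A (al d)) :=
    dct_int (al := al) (ds := R) (nn pi bl) W0 A (fun d _ => rfl) (fun d _ => rfl)
  have hcWp : (dct al (nn pi bl) R (insert (bl u1) W0) : ℤ) =
      ∑ d ∈ R, (A d + (E1 d + E2 d)) * (1 - (A (al d) + (E1 (al d) + E2 (al d)))) := by
    have e0 : ∀ d, A d + (E1 d + E2 d) =
        if nn pi bl d ∈ insert (bl u1) W0 then 1 else 0 := by
      intro d
      rw [← hB]
      show (if bl (pi d) ∈ W0 then (1 : ℤ) else 0) + _ = if bl (pi d) ∈ _ then _ else _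
      by_cases e1 : bl (pi d) = bl u1
      · have e2 : bl (pi d) ∉ W0 := by rw [e1]; exact hpW0
        rw [if_neg e2, if_pos (mem_singleton.2 e1), if_pos (by rw [e1]; exact mem_insert_self _ _)]
        norm_num
      · rw [if_neg (fun e => e1 (mem_singleton.1 e)), add_zero]
        exact if_congr ⟨fun e2 => mem_insert_of_mem e2,
          fun e2 => (mem_insert.1 e2).resolve_left e1⟩ rfl rfl
    exact dct_int (al := al) (ds := R) (nn pi bl) _ (fun d => A d + (E1 d + E2 d))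
      (fun d _ => e0 d) (fun d _ => e0 (al d))
  -- reversal
  have hrev : ∀ f : D → ℤ, ∑ d ∈ R, A d * f (al d) = ∑ d ∈ R, f d * A (al d) := by
    intro f
    rw [← sum_al ho.sys fun d => f d * A (al d)]
    refine sum_congr rfl fun d hd => ?_
    rw [ho.sys.inv d hd]
    ring
  have hA0 : ∀ d, 0 ≤ A d := by
    intro d
    simp only [hA]
    split_ifs <;> norm_num
  set s1 := ∑ d ∈ R, E1 d * A (al d) with hs1
  set s2 := ∑ d ∈ R, E2 d * A (al d) with hs2
  have hs1r : ∑ d ∈ R, A d * E1 (al d) = s1 := hrev E1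
  have hs2r : ∑ d ∈ R, A d * E2 (al d) = s2 := hrev E2
  have hs20 : 0 ≤ s2 := by
    refine sum_nonneg fun d _ => mul_nonneg ?_ (hA0 _)
    rcases (h01 d).2 with e | e <;> rw [e] <;> norm_num
  have eW : (dct al pi R W : ℤ) = (dct al (nn pi bl) R W0 : ℤ) + 2 - 2 * s1 := by
    rw [hcW, hcW0]
    have e1 : ∀ d ∈ R, (A d + E1 d) * (1 - (A (al d) + E1 (al d))) =
        A d * (1 - A (al d)) + E1 d - A d * E1 (al d) - E1 d * A (al d) := by
      intro d hd
      have := (hnn d hd).1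
      linear_combination (-1 : ℤ) * this
    rw [sum_congr rfl e1, sum_sub_distrib, sum_sub_distrib, sum_add_distrib, hS1, hs1r]
    ring
  have eWp : (dct al (nn pi bl) R (insert (bl u1) W0) : ℤ) =
      (dct al (nn pi bl) R W0 : ℤ) + 4 - 2 * s1 - 2 * s2 := by
    rw [hcWp, hcW0]
    have e1 : ∀ d ∈ R, (A d + (E1 d + E2 d)) * (1 - (A (al d) + (E1 (al d) + E2 (al d)))) =
        A d * (1 - A (al d)) + E1 d + E2 d - A d * E1 (al d) - A d * E2 (al d) -
          E1 d * A (al d) - E2 d * A (al d) := by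
      intro d hd
      obtain ⟨a1, a2, a3, a4⟩ := hnn d hd
      linear_combination (-1 : ℤ) * a1 + (-1 : ℤ) * a2 + (-1 : ℤ) * a3 + (-1 : ℤ) * a4
    rw [sum_congr rfl e1]
    simp only [sum_sub_distrib, sum_add_distrib]
    rw [hS1, hS2, hs1r, hs2r]
    ring
  have goal : (2 : ℤ) ≤ (dct al pi R W : ℤ) := by
    rcases W0.eq_empty_or_nonempty with h0 | h0
    · have e1 : s1 = 0 := by
        refine sum_eq_zero fun d _ => ?_
        have : A (al d) = 0 := by
          simp only [hA]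
          rw [if_neg]
          rw [h0]
          exact notMem_empty _
        rw [this, mul_zero]
      rw [eW, e1]
      have : (0 : ℤ) ≤ (dct al (nn pi bl) R W0 : ℕ) := Int.natCast_nonneg _
      linarith
    · have e1 : insert (bl u1) W0 ≠ ns := by
        intro e
        obtain ⟨u, a1, a2, a3⟩ := hout
        rw [← e] at a2
        have a4 := (mem_insert.1 a2).resolve_left a3
        exact a1 ((hW0m u (mem_filter.1 a4).1).1 a4).1
      have e2 := hR.four (insert (bl u1) W0)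
        (insert_subset hpn (filter_subset _ _)) (insert_nonempty _ _) e1
      have e3 : (4 : ℤ) ≤ (dct al (nn pi bl) R (insert (bl u1) W0) : ℕ) := by exact_mod_cast e2
      rw [eWp] at e3
      rw [eW]
      linarith
  exact_mod_cast goal

/-- the number of darts lost by a vertex of a pair node is at least 1 if the node is split, at most 2
and zero if it is not split -/
theorem Out.card_le (hb : Bs al0 ds0 pi bl PN ns0) (ho : Out al0 ds0 pi bl PN ns0 al ns P w x)
    {u : V} (hu : bl u ∈ PN) : (P.filter fun d => pi d = u).card ≤ 2 := by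
  rw [← hb.two u hu]
  exact card_le_card (filter_subset_filter _ ho.Psub)

theorem Out.card_pos (hb : Bs al0 ds0 pi bl PN ns0) (ho : Out al0 ds0 pi bl PN ns0 al ns P w x)
    {u : V} (hu : bl u ∈ PN) (hn : bl u ∉ ns) : 1 ≤ (P.filter fun d => pi d = u).card := by
  obtain ⟨d, hd, hdu⟩ := ho.pas (bl u) (hb.PNs hu) hn
  rw [ho.eqn u (pi d) hdu.symm hu]
  exact Finset.card_pos.2 ⟨d, mem_filter.2 ⟨hd, rfl⟩⟩

theorem Out.card_zero (ho : Out al0 ds0 pi bl PN ns0 al ns P w x)
    {u : V} (hu : bl u ∈ PN) (hn : bl u ∈ ns) : (P.filter fun d => pi d = u) = ∅ := by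
  rw [filter_eq_empty_iff]
  rintro d hd rfl
  rcases ho.ends d hd hn with rfl | rfl
  · exact ho.wt hu
  · exact ho.xt hu

end TL
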